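import Pool.Agent.Helper54.RC.Fast4

/-!
# Project RC, SHARP, cell engine: packed sequences

`Enc b n X d`: the natural number `X` has the digits `d k + 2 ^ b`, `k < n`, in the base `2 ^ (b + 1)`.
Sums, multiples, floors, windows, reversal.
-/

set_option autoImplicit false

namespace Helper96.SH

open Helper54.RC.Fast Helper76.RC.TPoly

/-- the packed sequence -/
def Enc (b n X : ℕ) (d : ℕ → ℤ) : Prop :=
  (X : ℤ) = ∑ k ∈ Finset.range n, (d k + 2 ^ b) * (2 ^ (b + 1)) ^ k ∧ ∀ k < n, -(2 ^ b : ℤ) ≤ d k ∧ d k < 2 ^ b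

/-- the value of the `k`-th digit -/
def dz (b k X : ℕ) : ℤ := (dg b k X : ℤ) - 2 ^ b

theorem evz_range (B : ℤ) (n : ℕ) (d : ℕ → ℤ) :
    evz B ((List.range n).map d) = ∑ k ∈ Finset.range n, d k * B ^ k := by
  induction n with
  | zero => simp [evz]
  | succ n ih =>
    rw [List.range_succ, List.map_append, evz_append, ih, Finset.sum_range_succ]
    simp [evz]
    ring

theorem gs_sum (B n : ℕ) : (gs B n : ℤ) = ∑ k ∈ Finset.range n, (B : ℤ) ^ k := by
  induction n with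
  | zero => simp [gs]
  | succ n ih =>
    rw [Finset.sum_range_succ', gs]
    push_cast
    rw [ih, Finset.mul_sum]
    have : ∑ k ∈ Finset.range n, (B : ℤ) * (B : ℤ) ^ k = ∑ k ∈ Finset.range n, (B : ℤ) ^ (k + 1) :=
      Finset.sum_congr rfl fun k _ => by ring
    rw [this]
    ring

/-- the digits are in the range -/
theorem mem_ls (b n X : ℕ) (c : ℤ) (hc : c ∈ ls b n X) : -(2 ^ b : ℤ) ≤ c ∧ c < 2 ^ b := by
  induction n generalizing X with
  | zero => simp [lst] at hc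
  | succ n ih =>
    have h0 : c ∈ (((X % 2 ^ (b + 1) : ℕ) : ℤ) - ((2 ^ b : ℕ) : ℤ)) :: ls b n (X / 2 ^ (b + 1)) := hc
    rcases List.mem_cons.1 h0 with h1 | h1
    · have h3 : X % 2 ^ (b + 1) < 2 ^ (b + 1) := Nat.mod_lt _ (by positivity)
      have h4 : 2 ^ (b + 1) = 2 ^ b + 2 ^ b := by rw [pow_succ]; ring
      have h5 : ((2 ^ b : ℕ) : ℤ) = 2 ^ b := by push_cast; rfl
      rw [h1, ← h5]
      generalize X % (2 ^ (b + 1)) = m at h3 ⊢
      rw [h4] at h3
      generalize 2 ^ b = P at h3 ⊢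
      constructor <;> omega
    · exact ih _ h1

/-- the link to the lists of helper54 -/
theorem Enc_iff (b n X : ℕ) (d : ℕ → ℤ) :
    Enc b n X d ↔ ls b n X = (List.range n).map d ∧ X < (2 ^ (b + 1)) ^ n := by
  constructor
  · rintro ⟨h1, h2⟩
    refine ls_of b n _ (by simp) ?_ X ?_
    · intro c hc
      obtain ⟨k, hk, rfl⟩ := List.mem_map.1 hc
      have := h2 k (List.mem_range.1 hk)
      push_cast
      exact this
    · rw [evz_range, h1, gs_sum, Finset.mul_sum, ← Finset.sum_add_distrib]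
      refine Finset.sum_congr rfl fun k _ => ?_
      push_cast
      ring
  · rintro ⟨h1, h2⟩
    have h3 := evz_lst' b n X h2
    rw [h1, evz_range, gs_sum, Finset.mul_sum, ← Finset.sum_add_distrib] at h3
    refine ⟨?_, ?_⟩
    · rw [h3]
      refine Finset.sum_congr rfl fun k _ => ?_
      push_cast
      ring
    · intro k hk
      have hm : d k ∈ ls b n X := by
        rw [h1]
        exact List.mem_map.2 ⟨k, List.mem_range.2 hk, rfl⟩
      exact mem_ls b n X (d k) hm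

theorem Enc.lt {b n X : ℕ} {d : ℕ → ℤ} (h : Enc b n X d) : X < (2 ^ (b + 1)) ^ n := ((Enc_iff b n X d).1 h).2

theorem Enc.congr {b n X : ℕ} {d e : ℕ → ℤ} (h : Enc b n X d) (he : ∀ k < n, e k = d k) : Enc b n X e := by
  refine ⟨h.1.trans (Finset.sum_congr rfl fun k hk => ?_), fun k hk => ?_⟩
  · rw [he k (Finset.mem_range.1 hk)]
  · rw [he k hk]
    exact h.2 k hk

/-- the digits of the list -/
theorem ls_dz (b n X : ℕ) : ls b n X = (List.range n).map (fun k => dz b k X) := by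
  induction n generalizing X with
  | zero => rfl
  | succ n ih =>
    rw [List.range_succ_eq_map, List.map_cons, List.map_map]
    show (((X % 2 ^ (b + 1) : ℕ) : ℤ) - ((2 ^ b : ℕ) : ℤ)) :: ls b n (X / 2 ^ (b + 1)) = _
    rw [ih]
    have e0 : (((X % 2 ^ (b + 1) : ℕ) : ℤ) - ((2 ^ b : ℕ) : ℤ)) = dz b 0 X := by
      show _ = ((X >>> ((b + 1) * 0) % 2 ^ (b + 1) : ℕ) : ℤ) - 2 ^ b
      simp
    rw [e0]
    congr 1
    · refine List.map_congr_left fun k _ => ?_
      show ((((X / 2 ^ (b + 1)) >>> ((b + 1) * k)) % 2 ^ (b + 1) : ℕ) : ℤ) - 2 ^ b =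
        ((X >>> ((b + 1) * (k + 1)) % 2 ^ (b + 1) : ℕ) : ℤ) - 2 ^ b
      rw [Nat.shiftRight_eq_div_pow, Nat.shiftRight_eq_div_pow, Nat.div_div_eq_div_mul, ← pow_add]
      have : b + 1 + (b + 1) * k = (b + 1) * (k + 1) := by ring
      rw [this]

theorem Enc_dz {b n X : ℕ} (h : X < (2 ^ (b + 1)) ^ n) : Enc b n X (fun k => dz b k X) :=
  (Enc_iff b n X _).2 ⟨ls_dz b n X, h⟩

theorem Enc.digit {b n X : ℕ} {d : ℕ → ℤ} (h : Enc b n X d) {k : ℕ} (hk : k < n) : dz b k X = d k := by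
  have h1 := ((Enc_iff b n X d).1 h).1
  rw [ls_dz] at h1
  have h2 := congrArg (fun l => l[k]?) h1
  simp only [List.getElem?_map] at h2
  rw [List.getElem?_range hk] at h2
  simpa using h2

/-- a sequence from the difference of two natural numbers -/
theorem Enc_sub {b n P Q : ℕ} {d : ℕ → ℤ} (hd : ∀ k < n, -(2 ^ b : ℤ) ≤ d k ∧ d k < 2 ^ b)
    (h : (P : ℤ) - Q = ∑ k ∈ Finset.range n, (d k + 2 ^ b) * (2 ^ (b + 1)) ^ k) : Enc b n (P - Q) d := by
  refine ⟨?_, hd⟩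
  have h0 : (0 : ℤ) ≤ ∑ k ∈ Finset.range n, (d k + 2 ^ b) * (2 ^ (b + 1)) ^ k := by
    refine Finset.sum_nonneg fun k hk => mul_nonneg ?_ (by positivity)
    have := (hd k (Finset.mem_range.1 hk)).1
    linarith
  rw [← h]
  omega

theorem of_sum (b n : ℕ) : (of b n : ℤ) = ∑ k ∈ Finset.range n, (2 ^ b : ℤ) * (2 ^ (b + 1)) ^ k := by
  rw [of_eq]
  push_cast
  rw [gs_sum, Finset.mul_sum]
  refine Finset.sum_congr rfl fun k _ => ?_
  push_cast
  rfl

theorem Enc.val {b n X : ℕ} {d : ℕ → ℤ} (h : Enc b n X d) :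
    (X : ℤ) = ∑ k ∈ Finset.range n, d k * (2 ^ (b + 1)) ^ k + of b n := by
  rw [h.1, of_sum, ← Finset.sum_add_distrib]
  exact Finset.sum_congr rfl fun k _ => by ring

/-- the window -/
theorem Enc.win {b n X : ℕ} {d : ℕ → ℤ} (h : Enc b n X d) {a m : ℕ} (ham : a + m ≤ n) :
    Enc b m (Helper54.RC.Fast.win b a m X) (fun k => d (a + k)) := by
  have hlt : Helper54.RC.Fast.win b a m X < (2 ^ (b + 1)) ^ m := by
    rw [win_eq]
    exact Nat.mod_lt _ (by positivity)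
  refine (Enc_dz hlt).congr fun k hk => ?_
  rw [← h.digit (show a + k < n by omega)]
  show ((X >>> ((b + 1) * (a + k)) % 2 ^ (b + 1) : ℕ) : ℤ) - 2 ^ b =
    (((Helper54.RC.Fast.win b a m X) >>> ((b + 1) * k) % 2 ^ (b + 1) : ℕ) : ℤ) - 2 ^ b
  rw [win_eq, Nat.shiftRight_eq_div_pow, Nat.shiftRight_eq_div_pow]
  congr 2
  have e1 : (2 ^ (b + 1)) ^ m = 2 ^ ((b + 1) * k) * (2 ^ (b + 1) * 2 ^ ((b + 1) * (m - k - 1))) := by
    rw [← pow_add, ← pow_add, ← pow_mul]
    congr 1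
    obtain ⟨q, rfl⟩ : ∃ q, m = k + 1 + q := ⟨m - k - 1, by omega⟩
    have : k + 1 + q - k - 1 = q := by omega
    rw [this]
    ring
  have e2 : 2 ^ ((b + 1) * (a + k)) = (2 ^ (b + 1)) ^ a * 2 ^ ((b + 1) * k) := by
    rw [← pow_mul, ← pow_add]
    congr 1
    ring
  rw [e1, Nat.mod_mul_right_div_self, Nat.mod_mod_of_dvd _ (dvd_mul_right _ _), e2, Nat.div_div_eq_div_mul]

/-- the floor -/
theorem Enc.fl {b n X s : ℕ} {d : ℕ → ℤ} (h : Enc b n X d) (hs : s ≤ b) :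
    Enc b n (Helper54.RC.Fast.fl b s (on b n) X) (fun k => d k / 2 ^ s) := by
  obtain ⟨h1, -⟩ := (Enc_iff b n X d).1 h
  obtain ⟨k1, k2⟩ := ls_fl b s n X hs
  rw [on_eq]
  refine (Enc_iff _ _ _ _).2 ⟨?_, k2⟩
  rw [k1, h1, List.map_map]
  refine List.map_congr_left fun k _ => ?_
  simp

/-- reversal -/
theorem Enc.rev {b n X : ℕ} {d : ℕ → ℤ} (h : Enc b n X d) : Enc b n (rvN b n X 0) (fun k => d (n - 1 - k)) := by
  obtain ⟨h1, -⟩ := (Enc_iff b n X d).1 h
  have r1 := ls_rv b n 0 X 0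
  have t1 := rvN_lt b n 0 X 0 (by simp)
  simp only [Nat.add_zero, lst, List.append_nil] at r1 t1
  refine (Enc_iff _ _ _ _).2 ⟨?_, t1⟩
  rw [r1, h1, ← List.map_reverse]
  have : (List.range n).reverse = (List.range n).map (fun k => n - 1 - k) := by
    apply List.ext_getElem
    · simp
    · intro i hi1 hi2
      simp at hi1 ⊢
  rw [this, List.map_map]
  rfl

end Helper96.SH
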