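import Pool.Agent.Helper96.SH.Enc
import Pool.Agent.Helper95.SH.CoordI

/-!
# Project RC, SHARP, cell engine: coefficients of approximated functions

`cf b p k`: the complex number with the digits of the frequency `k` of the polynomial `p`.
`AP_fc`: `‖cf b p k - 2 ^ s fc f k‖ ≤ p.er` for `|k| ≤ p.z.N`.
`En_tab`: the coefficients `En Θ m k` from the table of `e^{- i m D}`.
-/

set_option autoImplicit false

open MeasureTheory Set Filter Topology

namespace Helper96.SH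

open Helper54.RC.Fast Helper76.RC.TPoly
open Helper49.LT hiding sg
open Helper95.RC
open Helper95.SH (En Rn En_D En_neg)
open Helper87.RC (BM fc_eq fc_sub fc_cmul fc_add fc_conj)
open Helper56.RC (fc)

/-- the bound of coefficients -/
theorem norm_fc_le {f : ℝ → ℂ} {C : ℝ} (hf : BM f C) (k : ℤ) : ‖fc f k‖ ≤ C := by
  rw [fc_eq, norm_mul]
  have h1 : ‖∫ t in (0 : ℝ)..(2 * Real.pi), f t * ee (-(k : ℝ) * t)‖ ≤ C * |2 * Real.pi - 0| := by
    refine intervalIntegral.norm_integral_le_of_norm_le_const fun t _ => ?_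
    rw [norm_mul, norm_ee, mul_one]
    exact hf.b t
  have h2 : ‖(1 / (2 * Real.pi) : ℂ)‖ = 1 / (2 * Real.pi) := by
    rw [norm_div, norm_one, norm_mul, Complex.norm_real, Real.norm_of_nonneg Real.pi_pos.le]
    norm_num
  rw [h2]
  have h3 : |2 * Real.pi - 0| = 2 * Real.pi := by
    rw [sub_zero, abs_of_pos (by positivity)]
  rw [h3] at h1
  have h4 : (0 : ℝ) < 2 * Real.pi := by positivity
  calc 1 / (2 * Real.pi) * ‖∫ t in (0 : ℝ)..(2 * Real.pi), f t * ee (-(k : ℝ) * t)‖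
      ≤ 1 / (2 * Real.pi) * (C * (2 * Real.pi)) := mul_le_mul_of_nonneg_left h1 (by positivity)
    _ = C := by field_simp

/-- the coefficient of the frequency `k` -/
noncomputable def cf (b : ℕ) (z : FP) (k : ℤ) : ℂ :=
  (dz b ((z.N : ℤ) + k).toNat z.x : ℂ) + Complex.I * (dz b ((z.N : ℤ) + k).toNat z.y : ℂ)

theorem cf_cc (b : ℕ) (z : FP) (j : ℕ) : cf b z ((j : ℤ) - z.N) = Helper54.RC.Fast.cc b z j := by
  unfold cf Helper54.RC.Fast.cc dz
  have : ((z.N : ℤ) + ((j : ℤ) - z.N)).toNat = j := by omega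
  rw [this]
  push_cast
  ring

theorem V_tp (b : ℕ) (z : FP) : V b z = Helper95.RC.tp (Finset.Icc (-(z.N : ℤ)) z.N) (cf b z) := by
  funext t
  rw [V_eq_sum]
  unfold Helper95.RC.tp
  rw [len_eq]
  have : ∑ m ∈ Finset.Icc (-(z.N : ℤ)) z.N, cf b z m * ee ((m : ℝ) * t) =
      ∑ k ∈ Finset.range (2 * z.N + 1), cf b z ((k : ℤ) - z.N) * ee ((((k : ℤ) - z.N : ℤ) : ℝ) * t) := by
    symm
    refine Finset.sum_bij (fun k _ => (k : ℤ) - z.N) ?_ ?_ ?_ ?_
    · intro k hk
      rw [Finset.mem_range] at hk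
      rw [Finset.mem_Icc]
      omega
    · intro a _ c _ h
      have h : (a : ℤ) - z.N = (c : ℤ) - z.N := h
      omega
    · intro m hm
      rw [Finset.mem_Icc] at hm
      refine ⟨(m + z.N).toNat, ?_, ?_⟩
      · rw [Finset.mem_range]; omega
      · show (((m + z.N).toNat : ℕ) : ℤ) - z.N = m
        omega
    · intro k _
      rfl
  rw [this]
  refine Finset.sum_congr rfl fun k _ => ?_
  rw [cf_cc]
  push_cast
  rfl

theorem fc_V (b : ℕ) (z : FP) {k : ℤ} (hk : |k| ≤ z.N) : fc (V b z) k = cf b z k := by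
  rw [V_tp, fc_tp, if_pos]
  rw [Finset.mem_Icc]
  exact abs_le.1 hk

/-- **coefficients of an approximated function** -/
theorem AP_fc {b s : ℕ} {p : PF} {f : ℝ → ℂ} {C : ℝ} (hf : BM f C) (h : AP b s p f) {k : ℤ} (hk : |k| ≤ p.z.N) :
    ‖cf b p.z k - (2 ^ s : ℂ) * fc f k‖ ≤ p.er := by
  have hV : BM (V b p.z) (∑ m ∈ Finset.Icc (-(p.z.N : ℤ)) p.z.N, ‖cf b p.z m‖) := by
    rw [V_tp]
    refine ⟨?_, fun t => ?_⟩
    · unfold Helper95.RC.tp
      refine Finset.measurable_sum _ fun m _ => ?_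
      exact (continuous_ee.comp (continuous_const.mul continuous_id)).measurable.const_mul _
    · unfold Helper95.RC.tp
      refine (norm_sum_le _ _).trans (Finset.sum_le_sum fun m _ => ?_)
      rw [norm_mul, norm_ee, mul_one]
  have hf2 := hf.cmul (2 ^ s : ℂ)
  have h1 : BM (fun t => V b p.z t - (2 ^ s : ℂ) * f t) p.er := ⟨(hV.sub hf2).m, h.2⟩
  have h2 := norm_fc_le h1 k
  rw [fc_sub hV hf2, fc_V b p.z hk, fc_cmul] at h2
  exact h2

theorem BM_ee {D : ℝ → ℝ} (hD : Continuous D) (a : ℝ) : BM (fun t => ee (-(a * D t))) 1 :=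
  ⟨(continuous_ee.comp (continuous_const.mul hD).neg).measurable, fun t => by rw [norm_ee]⟩

/-- **the coefficients of `e^{i m Θ}` from the table of `e^{- i m D}`** -/
theorem En_tab {b s : ℕ} {p : PF} {D : ℝ → ℝ} (hD : Continuous D) {m : ℤ}
    (h : AP b s p (fun t => ee (-((m : ℝ) * D t)))) {k : ℤ} (hk : |k - m| ≤ p.z.N) :
    ‖cf b p.z (k - m) - (2 ^ s : ℂ) * En (fun x => x - D x) m k‖ ≤ p.er := by
  rw [En_D]
  exact AP_fc (BM_ee hD m) h hk

theorem norm_En_le {D : ℝ → ℝ} (hD : Continuous D) (m k : ℤ) : ‖En (fun x => x - D x) m k‖ ≤ 1 := by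
  rw [En_D]
  exact norm_fc_le (BM_ee hD m) _

end Helper96.SH
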