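import Pool.Agent.Helper96.SH.Lc
import Pool.Agent.Helper96.SH.Tab

/-!
# Project RC, SHARP, cell engine: rows from windows of a table

A term is a Gaussian integer `γ` and a table `p` with a centre `g`: it contributes
`γ p(g + l) + conj (γ p(g - l))` to the entry `l` of the row.
-/

set_option autoImplicit false

open MeasureTheory Set Filter Topology

namespace Helper96.SH

open Helper54.RC.Fast Helper76.RC.TPoly
open Helper49.LT hiding sg
open Helper95.RC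
open Helper87.RC (BM fc_eq fc_sub fc_cmul fc_add fc_conj)
open Helper56.RC (fc)

/-! ## Kernel part -/

/-- sums and differences of the windows at `g, g + 1, ..` and at `g, g - 1, ..` -/
structure W4 where
  sx : ℕ
  sy : ℕ
  dx : ℕ
  dy : ℕ

/-- the forward window and the reversed window -/
def fwN (b l1 g X : ℕ) : ℕ := win b g (Nat.succ l1) X
def rwN (b l1 g X : ℕ) : ℕ := rvN b (Nat.succ l1) (win b (Nat.sub g l1) (Nat.succ l1) X) 0

def w4 (b l1 g : ℕ) (z : FP) : W4 :=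
  ⟨adN b (Nat.succ l1) (fwN b l1 g z.x) (rwN b l1 g z.x), adN b (Nat.succ l1) (fwN b l1 g z.y) (rwN b l1 g z.y),
    suN b (Nat.succ l1) (fwN b l1 g z.x) (rwN b l1 g z.x), suN b (Nat.succ l1) (fwN b l1 g z.y) (rwN b l1 g z.y)⟩

/-- the real and imaginary parts -/
def flX : List (ℤ × ℤ × W4) → List (ℤ × ℕ)
  | [] => []
  | (a, c, w) :: l => (a, w.sx) :: (Int.neg c, w.sy) :: flX l
def flY : List (ℤ × ℤ × W4) → List (ℤ × ℕ)
  | [] => []
  | (a, c, w) :: l => (a, w.dy) :: (c, w.dx) :: flY l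
def unX (b n : ℕ) : List (ℕ × ℤ × ℤ) → List (ℤ × ℕ)
  | [] => []
  | (k, a, _) :: l => (a, unM b n k) :: unX b n l
def unY (b n : ℕ) : List (ℕ × ℤ × ℤ) → List (ℤ × ℕ)
  | [] => []
  | (k, _, c) :: l => (c, unM b n k) :: unY b n l

/-- the packed row: real parts, imaginary parts -/
def rwX (b s' l1 : ℕ) (ent : List (ℤ × ℤ × W4)) (un : List (ℕ × ℤ × ℤ)) : ℕ :=
  fl b s' (on b (Nat.succ l1)) (lcA b (Nat.succ l1) (flX ent ++ unX b (Nat.succ l1) un) 0 0 0 0)
def rwY (b s' l1 : ℕ) (ent : List (ℤ × ℤ × W4)) (un : List (ℕ × ℤ × ℤ)) : ℕ :=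
  fl b s' (on b (Nat.succ l1)) (lcA b (Nat.succ l1) (flY ent ++ unY b (Nat.succ l1) un) 0 0 0 0)

/-! ## Specification -/

/-- a term -/
structure Te where
  re : ℤ
  im : ℤ
  Γ : ℂ
  g : ℕ
  p : PF
  f : ℝ → ℂ

/-- a unit term -/
structure Ue where
  k : ℕ
  re : ℤ
  im : ℤ
  h : ℂ

structure Te.ok (b s s' l1 E : ℕ) (G : ℝ) (t : Te) : Prop where
  bm : BM t.f 1
  ap : AP b s t.p t.f
  er : t.p.er ≤ E
  g1 : l1 ≤ t.g
  g2 : t.g + l1 ≤ 2 * t.p.z.N
  ap' : ‖((t.re : ℂ) + Complex.I * t.im) - (2 ^ s' : ℂ) * t.Γ‖ ≤ 2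
  nG : ‖t.Γ‖ ≤ G

structure Ue.ok (s s' l1 : ℕ) (H : ℝ) (u : Ue) : Prop where
  k1 : u.k ≤ l1
  ap' : ‖((u.re : ℂ) + Complex.I * u.im) - (2 ^ (s + s') : ℂ) * u.h‖ ≤ 2
  nH : ‖u.h‖ ≤ H

variable {b s s' l1 E : ℕ} {G H : ℝ}

theorem cf_bd {p : PF} {f : ℝ → ℂ} (hf : BM f 1) (h : AP b s p f) (hE : p.er ≤ E) {k : ℤ} (hk : |k| ≤ p.z.N) :
    ‖cf b p.z k‖ ≤ 2 ^ s + E := by
  have h1 := AP_fc hf h hk
  have h2 := norm_fc_le hf k
  have e : cf b p.z k = (cf b p.z k - (2 ^ s : ℂ) * fc f k) + (2 ^ s : ℂ) * fc f k := by ring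
  rw [e]
  refine (norm_add_le _ _).trans ?_
  have h3 : ‖(2 ^ s : ℂ) * fc f k‖ ≤ 2 ^ s := by
    rw [norm_mul]
    have : ‖(2 ^ s : ℂ)‖ = 2 ^ s := by simp
    rw [this]
    calc (2 : ℝ) ^ s * ‖fc f k‖ ≤ 2 ^ s * 1 := mul_le_mul_of_nonneg_left h2 (by positivity)
      _ = 2 ^ s := mul_one _
  have h4 : (p.er : ℝ) ≤ E := by exact_mod_cast hE
  linarith

theorem dz_bd {p : PF} {f : ℝ → ℂ} (hf : BM f 1) (h : AP b s p f) (hE : p.er ≤ E) {k : ℕ} (hk : k ≤ 2 * p.z.N) :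
    |(dz b k p.z.x : ℝ)| ≤ 2 ^ s + E ∧ |(dz b k p.z.y : ℝ)| ≤ 2 ^ s + E := by
  have h1 := cf_bd (k := (k : ℤ) - p.z.N) hf h hE (by rw [abs_le]; omega)
  have e : ((p.z.N : ℤ) + ((k : ℤ) - p.z.N)).toNat = k := by omega
  unfold cf at h1
  rw [e] at h1
  set w : ℂ := (dz b k p.z.x : ℂ) + Complex.I * (dz b k p.z.y : ℂ) with hw
  have r1 : w.re = (dz b k p.z.x : ℝ) := by simp [hw]
  have r2 : w.im = (dz b k p.z.y : ℝ) := by simp [hw]
  rw [← r1, ← r2]
  exact ⟨(Complex.abs_re_le_norm w).trans h1, (Complex.abs_im_le_norm w).trans h1⟩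

theorem dz_bdZ {p : PF} {f : ℝ → ℂ} (hf : BM f 1) (h : AP b s p f) (hE : p.er ≤ E) {k : ℕ} (hk : k ≤ 2 * p.z.N) :
    |dz b k p.z.x| ≤ 2 ^ s + E ∧ |dz b k p.z.y| ≤ 2 ^ s + E := by
  obtain ⟨h1, h2⟩ := dz_bd hf h hE hk
  exact ⟨by exact_mod_cast h1, by exact_mod_cast h2⟩

/-- the windows -/
theorem Enc_fw {n X g : ℕ} (h : X < (2 ^ (b + 1)) ^ n) (hg : g + l1 < n) :
    Enc b (l1 + 1) (fwN b l1 g X) (fun l => dz b (g + l) X) := (Enc_dz h).win (by omega)

theorem Enc_rw {n X g : ℕ} (h : X < (2 ^ (b + 1)) ^ n) (hg : g < n) (hl : l1 ≤ g) :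
    Enc b (l1 + 1) (rwN b l1 g X) (fun l => dz b (g - l) X) := by
  have h1 : Enc b (l1 + 1) (win b (g - l1) (l1 + 1) X) (fun l => dz b (g - l1 + l) X) := (Enc_dz h).win (by omega)
  refine h1.rev.congr fun k hk => ?_
  congr 1
  omega

theorem lt_of_wf {z : FP} (h : wf b z = true) : z.x < (2 ^ (b + 1)) ^ (2 * z.N + 1) ∧
    z.y < (2 ^ (b + 1)) ^ (2 * z.N + 1) := by
  have := (wf_iff b z).1 h
  rw [len_eq] at this
  exact this

/-- the four sequences of a term -/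
theorem w4_enc {t : Te} (ht : t.ok b s s' l1 E G) (hb : 2 * (2 ^ s + E) < 2 ^ b) :
    Enc b (l1 + 1) (w4 b l1 t.g t.p.z).sx (fun l => dz b (t.g + l) t.p.z.x + dz b (t.g - l) t.p.z.x) ∧
    Enc b (l1 + 1) (w4 b l1 t.g t.p.z).sy (fun l => dz b (t.g + l) t.p.z.y + dz b (t.g - l) t.p.z.y) ∧
    Enc b (l1 + 1) (w4 b l1 t.g t.p.z).dx (fun l => dz b (t.g + l) t.p.z.x - dz b (t.g - l) t.p.z.x) ∧
    Enc b (l1 + 1) (w4 b l1 t.g t.p.z).dy (fun l => dz b (t.g + l) t.p.z.y - dz b (t.g - l) t.p.z.y) := by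
  obtain ⟨hx, hy⟩ := lt_of_wf ht.ap.1
  have g1 := ht.g1
  have g2 := ht.g2
  have f1 := Enc_fw (l1 := l1) (g := t.g) hx (by omega)
  have f2 := Enc_rw (l1 := l1) (g := t.g) hx (by omega) g1
  have f3 := Enc_fw (l1 := l1) (g := t.g) hy (by omega)
  have f4 := Enc_rw (l1 := l1) (g := t.g) hy (by omega) g1
  have hbZ : (2 : ℤ) * (2 ^ s + E) < 2 ^ b := by exact_mod_cast hb
  have bd : ∀ k < l1 + 1, |dz b (t.g + k) t.p.z.x| ≤ 2 ^ s + E ∧ |dz b (t.g + k) t.p.z.y| ≤ 2 ^ s + E ∧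
      |dz b (t.g - k) t.p.z.x| ≤ 2 ^ s + E ∧ |dz b (t.g - k) t.p.z.y| ≤ 2 ^ s + E := by
    intro k hk
    obtain ⟨a1, a2⟩ := dz_bdZ ht.bm ht.ap ht.er (k := t.g + k) (by omega)
    obtain ⟨a3, a4⟩ := dz_bdZ ht.bm ht.ap ht.er (k := t.g - k) (by omega)
    exact ⟨a1, a2, a3, a4⟩
  refine ⟨Enc_ad f1 f2 fun k hk => ?_, Enc_ad f3 f4 fun k hk => ?_, Enc_su f1 f2 fun k hk => ?_,
    Enc_su f3 f4 fun k hk => ?_⟩
  · obtain ⟨a1, a2, a3, a4⟩ := bd k hk
    exact lt_of_le_of_lt ((abs_add_le _ _).trans (add_le_add a1 a3)) (by linarith)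
  · obtain ⟨a1, a2, a3, a4⟩ := bd k hk
    exact lt_of_le_of_lt ((abs_add_le _ _).trans (add_le_add a2 a4)) (by linarith)
  · obtain ⟨a1, a2, a3, a4⟩ := bd k hk
    exact lt_of_le_of_lt ((abs_sub _ _).trans (add_le_add a1 a3)) (by linarith)
  · obtain ⟨a1, a2, a3, a4⟩ := bd k hk
    exact lt_of_le_of_lt ((abs_sub _ _).trans (add_le_add a2 a4)) (by linarith)

/-! ### the lists with their sequences -/

def spX (b l1 : ℕ) : List Te → List (ℤ × ℕ × (ℕ → ℤ))
  | [] => []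
  | t :: L => (t.re, (w4 b l1 t.g t.p.z).sx, fun l => dz b (t.g + l) t.p.z.x + dz b (t.g - l) t.p.z.x) ::
      (-t.im, (w4 b l1 t.g t.p.z).sy, fun l => dz b (t.g + l) t.p.z.y + dz b (t.g - l) t.p.z.y) :: spX b l1 L
def spY (b l1 : ℕ) : List Te → List (ℤ × ℕ × (ℕ → ℤ))
  | [] => []
  | t :: L => (t.re, (w4 b l1 t.g t.p.z).dy, fun l => dz b (t.g + l) t.p.z.y - dz b (t.g - l) t.p.z.y) ::
      (t.im, (w4 b l1 t.g t.p.z).dx, fun l => dz b (t.g + l) t.p.z.x - dz b (t.g - l) t.p.z.x) :: spY b l1 L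
def spUX (b n : ℕ) : List Ue → List (ℤ × ℕ × (ℕ → ℤ))
  | [] => []
  | u :: U => (u.re, unM b n u.k, fun j => if j = u.k then 1 else 0) :: spUX b n U
def spUY (b n : ℕ) : List Ue → List (ℤ × ℕ × (ℕ → ℤ))
  | [] => []
  | u :: U => (u.im, unM b n u.k, fun j => if j = u.k then 1 else 0) :: spUY b n U

/-- the integer data of the terms -/
def iT (b l1 : ℕ) (t : Te) : ℤ × ℤ × W4 := (t.re, t.im, w4 b l1 t.g t.p.z)
def iU (u : Ue) : ℕ × ℤ × ℤ := (u.k, u.re, u.im)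

theorem map_spX (L : List Te) : (spX b l1 L).map (fun t => (t.1, t.2.1)) = flX (L.map (iT b l1)) := by
  induction L with
  | nil => rfl
  | cons t L ih =>
    simp only [spX, List.map_cons, iT, flX] at ih ⊢
    rw [ih]
    rfl

theorem map_spY (L : List Te) : (spY b l1 L).map (fun t => (t.1, t.2.1)) = flY (L.map (iT b l1)) := by
  induction L with
  | nil => rfl
  | cons t L ih =>
    simp only [spY, List.map_cons, iT, flY] at ih ⊢
    rw [ih]

theorem map_spUX (n : ℕ) (U : List Ue) : (spUX b n U).map (fun t => (t.1, t.2.1)) = unX b n (U.map iU) := by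
  induction U with
  | nil => rfl
  | cons t L ih =>
    simp only [spUX, List.map_cons, iU, unX] at ih ⊢
    rw [ih]

theorem map_spUY (n : ℕ) (U : List Ue) : (spUY b n U).map (fun t => (t.1, t.2.1)) = unY b n (U.map iU) := by
  induction U with
  | nil => rfl
  | cons t L ih =>
    simp only [spUY, List.map_cons, iU, unY] at ih ⊢
    rw [ih]

/-- the integer value of a term -/
noncomputable def vT (b : ℕ) (l : ℕ) (t : Te) : ℂ :=
  ((t.re : ℂ) + Complex.I * t.im) * cf b t.p.z ((t.g : ℤ) + l - t.p.z.N) +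
    (starRingEnd ℂ) (((t.re : ℂ) + Complex.I * t.im) * cf b t.p.z ((t.g : ℤ) - l - t.p.z.N))
noncomputable def vU (l : ℕ) (u : Ue) : ℂ := if l = u.k then (u.re : ℂ) + Complex.I * u.im else 0

/-- the exact value -/
noncomputable def xT (l : ℕ) (t : Te) : ℂ :=
  t.Γ * fc t.f ((t.g : ℤ) + l - t.p.z.N) + (starRingEnd ℂ) (t.Γ * fc t.f ((t.g : ℤ) - l - t.p.z.N))
noncomputable def xU (l : ℕ) (u : Ue) : ℂ := if l = u.k then u.h else 0

theorem vT_re {t : Te} {l : ℕ} (hl : l ≤ t.g) : (vT b l t).re =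
    (t.re : ℝ) * ((dz b (t.g + l) t.p.z.x : ℝ) + dz b (t.g - l) t.p.z.x) -
      (t.im : ℝ) * ((dz b (t.g + l) t.p.z.y : ℝ) + dz b (t.g - l) t.p.z.y) := by
  unfold vT cf
  have e1 : ((t.p.z.N : ℤ) + ((t.g : ℤ) + l - t.p.z.N)).toNat = t.g + l := by omega
  have e2 : ((t.p.z.N : ℤ) + ((t.g : ℤ) - l - t.p.z.N)).toNat = t.g - l := by omega
  rw [e1, e2]
  simp only [Complex.add_re, Complex.mul_re, Complex.intCast_re, Complex.intCast_im, Complex.I_re, Complex.I_im,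
    Complex.add_im, Complex.mul_im, Complex.conj_re]
  ring

theorem vT_im {t : Te} {l : ℕ} (hl : l ≤ t.g) : (vT b l t).im =
    (t.re : ℝ) * ((dz b (t.g + l) t.p.z.y : ℝ) - dz b (t.g - l) t.p.z.y) +
      (t.im : ℝ) * ((dz b (t.g + l) t.p.z.x : ℝ) - dz b (t.g - l) t.p.z.x) := by
  unfold vT cf
  have e1 : ((t.p.z.N : ℤ) + ((t.g : ℤ) + l - t.p.z.N)).toNat = t.g + l := by omega
  have e2 : ((t.p.z.N : ℤ) + ((t.g : ℤ) - l - t.p.z.N)).toNat = t.g - l := by omega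
  rw [e1, e2]
  simp only [Complex.add_re, Complex.mul_re, Complex.intCast_re, Complex.intCast_im, Complex.I_re, Complex.I_im,
    Complex.add_im, Complex.mul_im, Complex.conj_im]
  ring

theorem sum_spX {L : List Te} {l : ℕ} (hL : ∀ t ∈ L, l ≤ t.g) :
    ((((spX b l1 L).map (fun t => t.1 * t.2.2 l)).sum : ℤ) : ℝ) = (((L.map (vT b l)).sum).re) := by
  induction L with
  | nil => simp [spX]
  | cons t L ih =>
    have h1 := ih fun t ht => hL t (List.mem_cons_of_mem _ ht)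
    have h2 := vT_re (b := b) (hL t List.mem_cons_self)
    simp only [spX, List.map_cons, List.sum_cons, Complex.add_re, h2]
    push_cast at h1 ⊢
    rw [h1]
    ring

theorem sum_spY {L : List Te} {l : ℕ} (hL : ∀ t ∈ L, l ≤ t.g) :
    ((((spY b l1 L).map (fun t => t.1 * t.2.2 l)).sum : ℤ) : ℝ) = (((L.map (vT b l)).sum).im) := by
  induction L with
  | nil => simp [spY]
  | cons t L ih =>
    have h1 := ih fun t ht => hL t (List.mem_cons_of_mem _ ht)
    have h2 := vT_im (b := b) (hL t List.mem_cons_self)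
    simp only [spY, List.map_cons, List.sum_cons, Complex.add_im, h2]
    push_cast at h1 ⊢
    rw [h1]
    ring

theorem sum_spUX (n : ℕ) (U : List Ue) (l : ℕ) :
    ((((spUX b n U).map (fun t => t.1 * t.2.2 l)).sum : ℤ) : ℝ) = (((U.map (vU l)).sum).re) := by
  induction U with
  | nil => simp [spUX]
  | cons t L ih =>
    simp only [spUX, List.map_cons, List.sum_cons, Complex.add_re]
    push_cast at ih ⊢
    rw [ih]
    unfold vU
    by_cases h : l = t.k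
    · simp [h]
    · simp [h]

theorem sum_spUY (n : ℕ) (U : List Ue) (l : ℕ) :
    ((((spUY b n U).map (fun t => t.1 * t.2.2 l)).sum : ℤ) : ℝ) = (((U.map (vU l)).sum).im) := by
  induction U with
  | nil => simp [spUY]
  | cons t L ih =>
    simp only [spUY, List.map_cons, List.sum_cons, Complex.add_im]
    push_cast at ih ⊢
    rw [ih]
    unfold vU
    by_cases h : l = t.k
    · simp [h]
    · simp [h]

/-! ### bounds -/

theorem norm_sum_list {α : Type*} (L : List α) (f g : α → ℂ) (c : ℝ) (h : ∀ t ∈ L, ‖f t - g t‖ ≤ c) :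
    ‖(L.map f).sum - (L.map g).sum‖ ≤ L.length * c := by
  induction L with
  | nil => simp
  | cons t L ih =>
    have h1 := ih fun t ht => h t (List.mem_cons_of_mem _ ht)
    have h2 := h t List.mem_cons_self
    simp only [List.map_cons, List.sum_cons, List.length_cons]
    have e : f t + (L.map f).sum - (g t + (L.map g).sum) = (f t - g t) + ((L.map f).sum - (L.map g).sum) := by ring
    rw [e]
    refine (norm_add_le _ _).trans ?_
    push_cast
    linarith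

theorem norm_c_le {t : Te} (ht : t.ok b s s' l1 E G) : ‖(t.re : ℂ) + Complex.I * t.im‖ ≤ 2 ^ s' * G + 2 := by
  have e : (t.re : ℂ) + Complex.I * t.im = (((t.re : ℂ) + Complex.I * t.im) - (2 ^ s' : ℂ) * t.Γ) + (2 ^ s' : ℂ) * t.Γ := by
    ring
  rw [e]
  refine (norm_add_le _ _).trans ?_
  have h1 := ht.ap'
  have h2 : ‖(2 ^ s' : ℂ) * t.Γ‖ ≤ 2 ^ s' * G := by
    rw [norm_mul]
    have : ‖(2 ^ s' : ℂ)‖ = 2 ^ s' := by simp
    rw [this]
    exact mul_le_mul_of_nonneg_left ht.nG (by positivity)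
  linarith

theorem vT_xT {t : Te} (ht : t.ok b s s' l1 E G) {l : ℕ} (hl : l ≤ l1) :
    ‖vT b l t - (2 ^ (s + s') : ℂ) * xT l t‖ ≤ 2 * (2 * (2 ^ s + E) + 2 ^ s' * G * E) := by
  have g1 := ht.g1
  have g2 := ht.g2
  have key : ∀ k : ℤ, |k| ≤ t.p.z.N → ‖((t.re : ℂ) + Complex.I * t.im) * cf b t.p.z k -
      (2 ^ (s + s') : ℂ) * (t.Γ * fc t.f k)‖ ≤ 2 * (2 ^ s + E) + 2 ^ s' * G * E := by
    intro k hk
    have h1 := AP_fc ht.bm ht.ap hk
    have h2 := cf_bd ht.bm ht.ap ht.er hk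
    have h3 := ht.ap'
    have h4 : (t.p.er : ℝ) ≤ E := by exact_mod_cast ht.er
    have e : ((t.re : ℂ) + Complex.I * t.im) * cf b t.p.z k - (2 ^ (s + s') : ℂ) * (t.Γ * fc t.f k) =
        (((t.re : ℂ) + Complex.I * t.im) - (2 ^ s' : ℂ) * t.Γ) * cf b t.p.z k +
        ((2 ^ s' : ℂ) * t.Γ) * (cf b t.p.z k - (2 ^ s : ℂ) * fc t.f k) := by
      rw [pow_add]; ring
    rw [e]
    refine (norm_add_le _ _).trans ?_
    rw [norm_mul, norm_mul]
    have h5 : ‖(2 ^ s' : ℂ) * t.Γ‖ ≤ 2 ^ s' * G := by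
      rw [norm_mul]
      have : ‖(2 ^ s' : ℂ)‖ = 2 ^ s' := by simp
      rw [this]
      exact mul_le_mul_of_nonneg_left ht.nG (by positivity)
    have hG : 0 ≤ 2 ^ s' * G := (norm_nonneg _).trans h5
    have h6 := mul_le_mul h3 h2 (norm_nonneg _) (by norm_num)
    have h7 := mul_le_mul h5 (h1.trans h4) (norm_nonneg _) hG
    linarith
  have k1 := key ((t.g : ℤ) + l - t.p.z.N) (by rw [abs_le]; omega)
  have k2 := key ((t.g : ℤ) - l - t.p.z.N) (by rw [abs_le]; omega)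
  unfold vT xT
  have hc : ((starRingEnd ℂ) (2 ^ (s + s') : ℂ)) = 2 ^ (s + s') := by rw [map_pow, Complex.conj_ofNat]
  have e : ((t.re : ℂ) + Complex.I * t.im) * cf b t.p.z ((t.g : ℤ) + l - t.p.z.N) +
      (starRingEnd ℂ) (((t.re : ℂ) + Complex.I * t.im) * cf b t.p.z ((t.g : ℤ) - l - t.p.z.N)) -
      (2 ^ (s + s') : ℂ) * (t.Γ * fc t.f ((t.g : ℤ) + l - t.p.z.N) +
        (starRingEnd ℂ) (t.Γ * fc t.f ((t.g : ℤ) - l - t.p.z.N))) =
      (((t.re : ℂ) + Complex.I * t.im) * cf b t.p.z ((t.g : ℤ) + l - t.p.z.N) -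
        (2 ^ (s + s') : ℂ) * (t.Γ * fc t.f ((t.g : ℤ) + l - t.p.z.N))) +
      (starRingEnd ℂ) (((t.re : ℂ) + Complex.I * t.im) * cf b t.p.z ((t.g : ℤ) - l - t.p.z.N) -
        (2 ^ (s + s') : ℂ) * (t.Γ * fc t.f ((t.g : ℤ) - l - t.p.z.N))) := by
    rw [map_sub, map_mul (starRingEnd ℂ) (2 ^ (s + s') : ℂ), hc]
    ring
  rw [e]
  refine (norm_add_le _ _).trans ?_
  rw [Complex.norm_conj]
  linarith

theorem vU_xU {u : Ue} (hu : u.ok s s' l1 H) (l : ℕ) : ‖vU l u - (2 ^ (s + s') : ℂ) * xU l u‖ ≤ 2 := by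
  unfold vU xU
  by_cases h : l = u.k
  · rw [if_pos h, if_pos h]
    exact hu.ap'
  · rw [if_neg h, if_neg h]
    simp

theorem norm_vT_le {t : Te} (ht : t.ok b s s' l1 E G) {l : ℕ} (hl : l ≤ l1) :
    ‖vT b l t‖ ≤ 2 * ((2 ^ s' * G + 2) * (2 ^ s + E)) := by
  have g1 := ht.g1
  have g2 := ht.g2
  have h1 := norm_c_le ht
  have h2 := cf_bd (k := (t.g : ℤ) + l - t.p.z.N) ht.bm ht.ap ht.er (by rw [abs_le]; omega)
  have h3 := cf_bd (k := (t.g : ℤ) - l - t.p.z.N) ht.bm ht.ap ht.er (by rw [abs_le]; omega)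
  have h0 : (0 : ℝ) ≤ 2 ^ s' * G + 2 := (norm_nonneg _).trans h1
  unfold vT
  refine (norm_add_le _ _).trans ?_
  rw [Complex.norm_conj, norm_mul, norm_mul]
  have h4 := mul_le_mul h1 h2 (norm_nonneg _) h0
  have h5 := mul_le_mul h1 h3 (norm_nonneg _) h0
  linarith

theorem norm_vU_le {u : Ue} (hu : u.ok s s' l1 H) (hH : 0 ≤ H) (l : ℕ) : ‖vU l u‖ ≤ 2 ^ (s + s') * H + 2 := by
  unfold vU
  by_cases h : l = u.k
  · rw [if_pos h]
    have e : (u.re : ℂ) + Complex.I * u.im = (((u.re : ℂ) + Complex.I * u.im) - (2 ^ (s + s') : ℂ) * u.h) +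
      (2 ^ (s + s') : ℂ) * u.h := by ring
    rw [e]
    refine (norm_add_le _ _).trans ?_
    have h1 := hu.ap'
    have h2 : ‖(2 ^ (s + s') : ℂ) * u.h‖ ≤ 2 ^ (s + s') * H := by
      rw [norm_mul]
      have : ‖(2 ^ (s + s') : ℂ)‖ = 2 ^ (s + s') := by simp
      rw [this]
      exact mul_le_mul_of_nonneg_left hu.nH (by positivity)
    linarith
  · rw [if_neg h, norm_zero]
    positivity

theorem norm_sum_list' {α : Type*} (L : List α) (f : α → ℂ) (c : ℝ) (h : ∀ t ∈ L, ‖f t‖ ≤ c) :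
    ‖(L.map f).sum‖ ≤ L.length * c := by
  have := norm_sum_list L f (fun _ => 0) c (by simpa using h)
  simpa using this

/-- division with floor -/
theorem fdiv_bd (s' : ℕ) (c : ℤ) : |((c / 2 ^ s' : ℤ) : ℝ) * 2 ^ s' - c| ≤ 2 ^ s' := by
  have h2 : (0 : ℤ) < 2 ^ s' := by positivity
  have h3 := Int.emod_nonneg c h2.ne'
  have h4 := (Int.emod_lt_of_pos c h2).le
  have h5 := Int.emod_add_mul_ediv c (2 ^ s')
  have e : ((c / 2 ^ s' : ℤ) : ℝ) * 2 ^ s' - c = -((c % 2 ^ s' : ℤ) : ℝ) := by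
    have h6 : ((c % 2 ^ s' + 2 ^ s' * (c / 2 ^ s') : ℤ) : ℝ) = (c : ℝ) := by rw [h5]
    push_cast at h6
    linarith
  rw [e, abs_neg, abs_of_nonneg (by exact_mod_cast h3)]
  exact_mod_cast h4

/-- **A ROW FROM WINDOWS** -/
theorem row_sound (L : List Te) (U : List Ue) (hL : ∀ t ∈ L, t.ok b s s' l1 E G) (hU : ∀ u ∈ U, u.ok s s' l1 H)
    (hH : 0 ≤ H) (hb : 2 * (2 ^ s + E) < 2 ^ b) (hs : s' ≤ b) {e : ℝ}
    (hB : (L.length : ℝ) * (2 * ((2 ^ s' * G + 2) * (2 ^ s + E))) + U.length * (2 ^ (s + s') * H + 2) < 2 ^ b)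
    (he : 2 * 2 ^ s' + ((L.length : ℝ) * (2 * (2 * (2 ^ s + E) + 2 ^ s' * G * E)) + U.length * 2) ≤ e * 2 ^ s') :
    ∃ dx dy : ℕ → ℤ, Enc b (l1 + 1) (rwX b s' l1 (L.map (iT b l1)) (U.map iU)) dx ∧
      Enc b (l1 + 1) (rwY b s' l1 (L.map (iT b l1)) (U.map iU)) dy ∧
      ∀ l ≤ l1, ‖((dx l : ℂ) + Complex.I * (dy l : ℂ)) -
        (2 ^ s : ℂ) * ((L.map (xT l)).sum + (U.map (xU l)).sum)‖ ≤ e := by
  have hb1 : 1 ≤ b := by
    by_contra h0
    have : b = 0 := by omega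
    subst this
    have : 1 ≤ 2 ^ s := Nat.one_le_two_pow
    omega
  -- encodings
  have eX : ∀ t ∈ spX b l1 L ++ spUX b (l1 + 1) U, Enc b (l1 + 1) t.2.1 t.2.2 := by
    intro t ht
    rcases List.mem_append.1 ht with h | h
    · clear ht hB he
      induction L with
      | nil => simp [spX] at h
      | cons a L ih =>
        have w := w4_enc (hL a List.mem_cons_self) hb
        simp only [spX, List.mem_cons] at h
        rcases h with h | h | h
        · subst h; exact w.1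
        · subst h; exact w.2.1
        · exact ih (fun t ht => hL t (List.mem_cons_of_mem _ ht)) h
    · clear ht hB he
      induction U with
      | nil => simp [spUX] at h
      | cons a U ih =>
        simp only [spUX, List.mem_cons] at h
        rcases h with h | h
        · subst h
          have := (hU a List.mem_cons_self).k1
          exact Enc_unM (by omega) hb1
        · exact ih (fun t ht => hU t (List.mem_cons_of_mem _ ht)) h
  have eY : ∀ t ∈ spY b l1 L ++ spUY b (l1 + 1) U, Enc b (l1 + 1) t.2.1 t.2.2 := by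
    intro t ht
    rcases List.mem_append.1 ht with h | h
    · clear ht hB he eX
      induction L with
      | nil => simp [spY] at h
      | cons a L ih =>
        have w := w4_enc (hL a List.mem_cons_self) hb
        simp only [spY, List.mem_cons] at h
        rcases h with h | h | h
        · subst h; exact w.2.2.2
        · subst h; exact w.2.2.1
        · exact ih (fun t ht => hL t (List.mem_cons_of_mem _ ht)) h
    · clear ht hB he eX
      induction U with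
      | nil => simp [spUY] at h
      | cons a U ih =>
        simp only [spUY, List.mem_cons] at h
        rcases h with h | h
        · subst h
          have := (hU a List.mem_cons_self).k1
          exact Enc_unM (by omega) hb1
        · exact ih (fun t ht => hU t (List.mem_cons_of_mem _ ht)) h
  -- values
  set A : ℕ → ℂ := fun l => (L.map (vT b l)).sum + (U.map (vU l)).sum with hA
  have sX : ∀ l ≤ l1, ((((spX b l1 L ++ spUX b (l1 + 1) U).map (fun t => t.1 * t.2.2 l)).sum : ℤ) : ℝ) = (A l).re := by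
    intro l hl
    rw [List.map_append, List.sum_append, hA]
    push_cast
    rw [Complex.add_re, ← sum_spX (l1 := l1) (fun t ht => hl.trans (hL t ht).g1), ← sum_spUX (b := b) (l1 + 1) U l]
    push_cast
    rfl
  have sY : ∀ l ≤ l1, ((((spY b l1 L ++ spUY b (l1 + 1) U).map (fun t => t.1 * t.2.2 l)).sum : ℤ) : ℝ) = (A l).im := by
    intro l hl
    rw [List.map_append, List.sum_append, hA]
    push_cast
    rw [Complex.add_im, ← sum_spY (l1 := l1) (fun t ht => hl.trans (hL t ht).g1), ← sum_spUY (b := b) (l1 + 1) U l]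
    push_cast
    rfl
  have nA : ∀ l ≤ l1, ‖A l‖ < 2 ^ b := by
    intro l hl
    refine lt_of_le_of_lt ?_ hB
    rw [hA]
    refine (norm_add_le _ _).trans (add_le_add ?_ ?_)
    · exact norm_sum_list' L _ _ fun t ht => norm_vT_le (hL t ht) hl
    · exact norm_sum_list' U _ _ fun u hu => norm_vU_le (hU u hu) hH l
  have cX : ∀ k < l1 + 1, |((spX b l1 L ++ spUX b (l1 + 1) U).map (fun t => t.1 * t.2.2 k)).sum| < 2 ^ b := by
    intro k hk
    have h1 := lt_of_le_of_lt (Complex.abs_re_le_norm (A k)) (nA k (by omega))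
    rw [← sX k (by omega)] at h1
    exact_mod_cast h1
  have cY : ∀ k < l1 + 1, |((spY b l1 L ++ spUY b (l1 + 1) U).map (fun t => t.1 * t.2.2 k)).sum| < 2 ^ b := by
    intro k hk
    have h1 := lt_of_le_of_lt (Complex.abs_im_le_norm (A k)) (nA k (by omega))
    rw [← sY k (by omega)] at h1
    exact_mod_cast h1
  have fX := (Enc_lc b (l1 + 1) _ eX cX).fl hs
  have fY := (Enc_lc b (l1 + 1) _ eY cY).fl hs
  rw [List.map_append, map_spX, map_spUX] at fX
  rw [List.map_append, map_spY, map_spUY] at fY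
  refine ⟨_, _, fX, fY, fun l hl => ?_⟩
  beta_reduce
  set SX := ((spX b l1 L ++ spUX b (l1 + 1) U).map (fun t => t.1 * t.2.2 l)).sum with hSX
  set SY := ((spY b l1 L ++ spUY b (l1 + 1) U).map (fun t => t.1 * t.2.2 l)).sum with hSY
  have q1 := fdiv_bd s' SX
  have q2 := fdiv_bd s' SY
  have hX := sX l hl
  have hY := sY l hl
  rw [hX] at q1
  rw [hY] at q2
  set κ := (L.map (xT l)).sum + (U.map (xU l)).sum with hκ
  have d1 : ‖A l - (2 ^ (s + s') : ℂ) * κ‖ ≤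
      (L.length : ℝ) * (2 * (2 * (2 ^ s + E) + 2 ^ s' * G * E)) + U.length * 2 := by
    have e1 : A l - (2 ^ (s + s') : ℂ) * κ = ((L.map (vT b l)).sum - (L.map (fun t => (2 ^ (s + s') : ℂ) * xT l t)).sum) +
        ((U.map (vU l)).sum - (U.map (fun u => (2 ^ (s + s') : ℂ) * xU l u)).sum) := by
      rw [hA, hκ, List.sum_map_mul_left, List.sum_map_mul_left]
      ring
    rw [e1]
    refine (norm_add_le _ _).trans (add_le_add ?_ ?_)
    · exact norm_sum_list L _ _ _ fun t ht => vT_xT (hL t ht) hl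
    · exact norm_sum_list U _ _ _ fun u hu => vU_xU (hU u hu) l
  have hS : (0 : ℝ) < 2 ^ s' := by positivity
  have d2 : ‖(2 ^ s' : ℂ) * (((SX / 2 ^ s' : ℤ) : ℂ) + Complex.I * ((SY / 2 ^ s' : ℤ) : ℂ)) - A l‖ ≤ 2 * 2 ^ s' := by
    have e2 : (2 ^ s' : ℂ) * (((SX / 2 ^ s' : ℤ) : ℂ) + Complex.I * ((SY / 2 ^ s' : ℤ) : ℂ)) - A l =
        ((((SX / 2 ^ s' : ℤ) : ℝ) * 2 ^ s' - (A l).re : ℝ) : ℂ) +
          Complex.I * ((((SY / 2 ^ s' : ℤ) : ℝ) * 2 ^ s' - (A l).im : ℝ) : ℂ) := by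
      have h := Complex.re_add_im (A l)
      conv_lhs => rw [← h]
      push_cast
      ring
    rw [e2]
    refine (norm_add_le _ _).trans ?_
    rw [norm_mul, Complex.norm_I, one_mul, Complex.norm_real, Complex.norm_real, Real.norm_eq_abs, Real.norm_eq_abs]
    linarith
  have d3 : 2 ^ s' * ‖(((SX / 2 ^ s' : ℤ) : ℂ) + Complex.I * ((SY / 2 ^ s' : ℤ) : ℂ)) - (2 ^ s : ℂ) * κ‖ ≤
      2 ^ s' * e := by
    have e3 : 2 ^ s' * ‖(((SX / 2 ^ s' : ℤ) : ℂ) + Complex.I * ((SY / 2 ^ s' : ℤ) : ℂ)) - (2 ^ s : ℂ) * κ‖ =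
        ‖((2 ^ s' : ℂ) * (((SX / 2 ^ s' : ℤ) : ℂ) + Complex.I * ((SY / 2 ^ s' : ℤ) : ℂ)) - A l) +
          (A l - (2 ^ (s + s') : ℂ) * κ)‖ := by
      have hn : (2 : ℝ) ^ s' = ‖(2 ^ s' : ℂ)‖ := by simp
      rw [hn, ← norm_mul, pow_add]
      congr 1
      ring
    rw [e3]
    refine (norm_add_le _ _).trans ?_
    linarith
  exact le_of_mul_le_mul_left d3 hS

end Helper96.SH
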