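import Pool.Agent.Helper96.SH.D2b
import Pool.Agent.Helper25.SH.Mat

/-!
# Project RC, SHARP, cell engine: floors of packed rows, the rows of `D2` in helper25's format

`flC b t l1 X`: the digits `0 .. l1` divided by `2 ^ t` (floor). `AL b l X Y`: the columns with the two digits
digit `l` of `X`, digit `l` of `Y`.
-/

set_option autoImplicit false

open MeasureTheory Set Filter Topology

namespace Helper96.SH

open Helper54.RC.Fast Helper76.RC.TPoly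
open Helper49.LT hiding sg
open Helper95.SH (e0I nt bp br pV rV sV HkA CD qk LR)
open Helper25.SH.Mat (row)

/-! ## The floor -/

/-- floor of the digits `0 .. l1` -/
def flC (b t l1 X : ℕ) : ℕ := fl b t (on b (Nat.succ l1)) X

theorem Enc_flC {b t l1 X : ℕ} (hX : X < (2 ^ (b + 1)) ^ (l1 + 1)) (ht : t ≤ b) :
    Enc b (l1 + 1) (flC b t l1 X) (fun k => dz b k X / 2 ^ t) := (Enc_dz hX).fl ht

theorem dz_flC {b t l1 X k : ℕ} (hX : X < (2 ^ (b + 1)) ^ (l1 + 1)) (ht : t ≤ b) (hk : k ≤ l1) :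
    dz b k (flC b t l1 X) = dz b k X / 2 ^ t := (Enc_flC hX ht).digit (by omega)

/-- floor of the rows -/
theorem LR_flC {n b t l1 k s : ℕ} {F : (ℕ → ℝ) → ℝ} {x : ℕ → ℕ} {e : ℝ} (hx : ∀ i < n, x i < (2 ^ (b + 1)) ^ (l1 + 1))
    (hk : k ≤ l1) (ht : t ≤ b) (hts : t ≤ s) (h : LR n (2 ^ s) F (fun i => dz b k (x i)) e) :
    LR n (2 ^ (s - t)) F (fun i => dz b k (flC b t l1 (x i))) (e / 2 ^ t + 1) := by
  obtain ⟨ρ, h1, h2⟩ := h
  refine ⟨ρ, h1, fun i hi => ?_⟩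
  have h3 : |2 ^ s * ρ i - (dz b k (x i) : ℝ)| ≤ e := h2 i hi
  show |2 ^ (s - t) * ρ i - (dz b k (flC b t l1 (x i)) : ℝ)| ≤ e / 2 ^ t + 1
  rw [dz_flC (hx i hi) ht hk]
  have h4 := fdiv_bd t (dz b k (x i))
  have hS : (0 : ℝ) < 2 ^ t := by positivity
  have e1 : (2 : ℝ) ^ s = 2 ^ (s - t) * 2 ^ t := by rw [← pow_add, Nat.sub_add_cancel hts]
  rw [e1] at h3
  have key : 2 ^ t * |2 ^ (s - t) * ρ i - ((dz b k (x i) / 2 ^ t : ℤ) : ℝ)| ≤ 2 ^ t * (e / 2 ^ t + 1) := by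
    rw [← abs_of_pos hS, ← abs_mul, abs_of_pos hS]
    have e2 : 2 ^ t * (2 ^ (s - t) * ρ i - ((dz b k (x i) / 2 ^ t : ℤ) : ℝ)) =
        (2 ^ (s - t) * 2 ^ t * ρ i - (dz b k (x i) : ℝ)) -
          (((dz b k (x i) / 2 ^ t : ℤ) : ℝ) * 2 ^ t - (dz b k (x i) : ℝ)) := by ring
    rw [e2]
    refine (abs_sub _ _).trans ((add_le_add h3 h4).trans (le_of_eq ?_))
    field_simp
  exact le_of_mul_le_mul_left key hS

/-! ## helper25's rows -/

theorem dz_dg (b k X : ℕ) : dz b k X = Helper25.SH.Mat.dg b X k := by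
  show ((X >>> ((b + 1) * k) % 2 ^ (b + 1) : ℕ) : ℤ) - 2 ^ b = ((X / (2 ^ (b + 1)) ^ k % 2 ^ (b + 1) : ℕ) : ℤ) - ((2 ^ b : ℕ) : ℤ)
  rw [Nat.shiftRight_eq_div_pow, pow_mul]
  push_cast
  rfl

/-- a digit of the columns -/
theorem row_dz {b k i : ℕ} {X : List ℕ} {x : ℕ} (hx : X[i]? = some x) : row b X k i = dz b k x := by
  rw [dz_dg]
  unfold row
  rw [List.getD_eq_getElem?_getD, hx]
  rfl

/-- two digits -/
def pk (b l x y : ℕ) : ℕ :=
  Nat.add (Nat.mod (Nat.shiftRight x (Nat.mul (Nat.succ b) l)) (Nat.pow 2 (Nat.succ b)))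
    (Nat.mul (Nat.pow 2 (Nat.succ b)) (Nat.mod (Nat.shiftRight y (Nat.mul (Nat.succ b) l)) (Nat.pow 2 (Nat.succ b))))

/-- the columns of the functionals `digit l of X`, `digit l of Y` -/
def AL (b l : ℕ) : List ℕ → List ℕ → List ℕ
  | x :: X, y :: Y => pk b l x y :: AL b l X Y
  | _, _ => []

theorem pk_dz (b l x y : ℕ) : dz b 0 (pk b l x y) = dz b l x ∧ dz b 1 (pk b l x y) = dz b l y := by
  have e : pk b l x y = x >>> ((b + 1) * l) % 2 ^ (b + 1) + 2 ^ (b + 1) * (y >>> ((b + 1) * l) % 2 ^ (b + 1)) := rfl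
  have h1 : x >>> ((b + 1) * l) % 2 ^ (b + 1) < 2 ^ (b + 1) := Nat.mod_lt _ (by positivity)
  have h2 : y >>> ((b + 1) * l) % 2 ^ (b + 1) < 2 ^ (b + 1) := Nat.mod_lt _ (by positivity)
  constructor
  · show ((pk b l x y >>> ((b + 1) * 0) % 2 ^ (b + 1) : ℕ) : ℤ) - 2 ^ b = ((x >>> ((b + 1) * l) % 2 ^ (b + 1) : ℕ) : ℤ) - 2 ^ b
    rw [e, Nat.mul_zero, Nat.shiftRight_zero, Nat.add_mul_mod_self_left, Nat.mod_mod]
  · show ((pk b l x y >>> ((b + 1) * 1) % 2 ^ (b + 1) : ℕ) : ℤ) - 2 ^ b = ((y >>> ((b + 1) * l) % 2 ^ (b + 1) : ℕ) : ℤ) - 2 ^ b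
    rw [e, Nat.mul_one, Nat.shiftRight_eq_div_pow, Nat.add_mul_div_left _ _ (by positivity), Nat.div_eq_of_lt h1,
      Nat.zero_add, Nat.mod_mod]

theorem AL_get {b l : ℕ} : ∀ {X Y : List ℕ} {i x y : ℕ}, X[i]? = some x → Y[i]? = some y →
    (AL b l X Y)[i]? = some (pk b l x y) := by
  intro X
  induction X with
  | nil => intro Y i x y hx; simp at hx
  | cons a X ih =>
    intro Y i x y hx hy
    cases Y with
    | nil => simp at hy
    | cons c Y =>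
      cases i with
      | zero =>
        simp only [List.getElem?_cons_zero, Option.some.injEq] at hx hy
        subst hx; subst hy
        rfl
      | succ i =>
        simp only [List.getElem?_cons_succ] at hx hy
        exact ih hx hy

theorem row_AL {b l i : ℕ} {X Y : List ℕ} {x y : ℕ} (hx : X[i]? = some x) (hy : Y[i]? = some y) :
    row b (AL b l X Y) 0 i = dz b l x ∧ row b (AL b l X Y) 1 i = dz b l y := by
  have h := AL_get (b := b) (l := l) hx hy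
  rw [row_dz h, row_dz h]
  exact pk_dz b l x y

theorem length_AL (b l : ℕ) (X Y : List ℕ) : (AL b l X Y).length = min X.length Y.length := by
  induction X generalizing Y with
  | nil => simp [AL]
  | cons a X ih =>
    cases Y with
    | nil => simp [AL]
    | cons c Y => simp [AL, ih]

/-! ## The rows -/

/-- a packed row is small -/
theorem rwX_lt (b s' l1 : ℕ) (A : List (ℤ × ℤ × W4)) (H : List (ℕ × ℤ × ℤ)) (hs : s' ≤ b) :
    rwX b s' l1 A H < (2 ^ (b + 1)) ^ (l1 + 1) := by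
  have k := (ls_fl b s' (l1 + 1) (lcA b (Nat.succ l1) (flX A ++ unX b (Nat.succ l1) H) 0 0 0 0) hs).2
  rw [← on_eq] at k
  exact k

theorem rwY_lt (b s' l1 : ℕ) (A : List (ℤ × ℤ × W4)) (H : List (ℕ × ℤ × ℤ)) (hs : s' ≤ b) :
    rwY b s' l1 A H < (2 ^ (b + 1)) ^ (l1 + 1) := by
  have k := (ls_fl b s' (l1 + 1) (lcA b (Nat.succ l1) (flY A ++ unY b (Nat.succ l1) H) 0 0 0 0) hs).2
  rw [← on_eq] at k
  exact k

/-- **THE ROWS OF `D2` AND `e_0` IN THE FORMAT OF THE MATRIX** -/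
theorem LR_D2 {c : CD} {b s s' t l1 M E K L R N : ℕ} {D1 D1' D2 D2' : ℝ → ℝ} {T1 T2 : List PF}
    (c1 : c.Th1 = fun x => x - D1 x) (c1' : c.Th1' = fun x => 1 - D1' x)
    (c2 : c.Th2 = fun x => x - D2 x) (c2' : c.Th2' = fun x => 1 - D2' x) (d1 : DD D1 D1') (d2 : DD D2 D2')
    (hT1 : TabOK b s l1 M E D1 T1) (hT2 : TabOK b s l1 M E D2 T2) (hM : max K L + 4 ≤ M) (hNN : max K L + 1 ≤ N)
    (hK : ¬ Even K) (hL : Even L)
    {νn νd DZ e1 e2 : ℤ} (hν : 0 < νn) (hνd : 0 < νd) (h6 : 6 * νn ≤ νd) (hD : 0 < DZ) (he : |e1| + |e2| ≤ DZ)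
    (hη : c.P.eta = ((e1 : ℂ) + e2 * Complex.I) / DZ) (hnu : c.P.nu = (νn : ℝ) / νd)
    (hN : okN b s s' E R = true) {U : ℕ → List Ue} (hU1 : ∀ i < nt K L, ∀ u ∈ U i, u.ok s s' l1 1)
    (hU2 : ∀ i < nt K L, (U i).length ≤ 3)
    (hU3 : ∀ v : ℕ → ℝ, v 0 = 1 → ∀ k : ℕ, 2 * k + 2 ≤ l1 → HkA c.P (pV K L v) (rV K L v) k =
      ∑ i ∈ Finset.range (nt K L), (v i : ℂ) * ((U i).map (xU (2 * k + 2))).sum)
    (hU4 : ∀ i < nt K L, ((U i).map (xU 0)).sum = 0) (ht : t ≤ b) (hts : t ≤ s)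
    {X Y : List ℕ}
    (hX : ∀ i < nt K L, X[i]? = some (flC b t l1 (qX b s' l1 K L R DZ e1 e2 νn (32 * νd * DZ) T1 T2 (fun i => (U i).map iU) i)))
    (hY : ∀ i < nt K L, Y[i]? = some (flC b t l1 (qY b s' l1 K L R DZ e1 e2 νn (32 * νd * DZ) T1 T2 (fun i => (U i).map iU) i))) :
    (∀ k : ℕ, 2 * k + 2 ≤ l1 →
      LR (nt K L) (2 ^ (s - t)) (fun v => (qk c N (pV K L v) (rV K L v) (sV K v) k).re)
        (row b (AL b (2 * k + 2) X Y) 0) ((2 * E + 9) / 2 ^ t + 1) ∧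
      LR (nt K L) (2 ^ (s - t)) (fun v => (qk c N (pV K L v) (rV K L v) (sV K v) k).im)
        (row b (AL b (2 * k + 2) X Y) 1) ((2 * E + 9) / 2 ^ t + 1)) ∧
    LR (nt K L) (2 ^ (s - t)) (fun v => c.P.nu / 2 * e0I c.P c.Th1 c.Th1' c.Th2 c.Th2' N (pV K L v) (rV K L v) (sV K v))
      (row b X 0) ((2 * E + 9) / 2 ^ t + 1) := by
  obtain ⟨h1, h2⟩ := LR_q c1 c1' c2 c2' d1 d2 hT1 hT2 hM hNN hK hL hν hνd h6 hD he hη hnu hN hU1 hU2 hU3 hU4
  obtain ⟨-, -, n3, -, -, -⟩ := okN_iff hN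
  have hs : s' ≤ b := by omega
  refine ⟨fun k hk => ⟨?_, ?_⟩, ?_⟩
  · refine (LR_flC (fun i _ => rwX_lt _ _ _ _ _ hs) hk ht hts (h1 k hk).1).congr (fun _ _ => rfl) fun i hi => ?_
    exact (row_AL (hX i hi) (hY i hi)).1
  · refine (LR_flC (fun i _ => rwY_lt _ _ _ _ _ hs) hk ht hts (h1 k hk).2).congr (fun _ _ => rfl) fun i hi => ?_
    exact (row_AL (hX i hi) (hY i hi)).2
  · refine (LR_flC (fun i _ => rwX_lt _ _ _ _ _ hs) (Nat.zero_le _) ht hts h2).congr (fun _ _ => rfl) fun i hi => ?_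
    exact row_dz (hX i hi)

end Helper96.SH
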