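import Pool.Agent.Helper96.SH.Row
import Pool.Agent.Helper85.NS.Col
import Pool.Agent.Helper95.SH.Head

/-!
# Project RC, SHARP, cell engine: the rows of `D2` and of `e_0`

For every real coordinate `i` the packed rows (digits `l = 0 .. l1`) of `H_l - (ν/2) W_l` (even `l ≥ 2`) and
`(ν/2) e_0` (`l = 0`), from the tables of `e^{- i q D_j}` and helper85's columns of `C1`, `C2`.
-/

set_option autoImplicit false

open MeasureTheory Set Filter Topology

namespace Helper96.SH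

open Helper54.RC.Fast Helper76.RC.TPoly
open Helper49.LT hiding sg
open Helper49.RC (om)
open Helper95.RC
open Helper95.SH (En Rn En_D En_neg Rn_neg wF WA e0I nt bp br pV rV sV C1 C2 HkA CD qk LR Arr)
open Helper87.RC (BM fc_eq fc_sub fc_cmul fc_add fc_conj)
open Helper56.RC (fc)
open Helper49.Sharp (Par)
open Helper85.NS (evL evL_cons evL_nil evL_append colL colK termsK fld kap Ty zt z2 ev_kap_true ev_kap_false col_C1 col_C2)
open Pool.Agent.Helper40.NR (Z4 ev4 add4 sc4 rot4 cj4 mul4 ev4_add ev4_sc ev4_rot ev4_cj ev4_mul)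

/-! ## Kernel part -/

/-- the integer constant of an entry; `den = 32 νd D` -/
def gam (s' : ℕ) (R3 νn den : ℤ) (x : ℤ × Z4) : ℤ × ℤ :=
  match x with
  | (Int.ofNat 0, (a, b, c, d)) =>
    (Int.ediv (Int.mul (Int.add (Int.mul c (Int.ofNat (Nat.pow 2 s'))) (Int.mul d R3)) νn) den,
      Int.ediv (Int.neg (Int.mul (Int.add (Int.mul a (Int.ofNat (Nat.pow 2 s'))) (Int.mul b R3)) νn)) den)
  | (Int.ofNat (Nat.succ k), (a, b, c, d)) =>
    (Int.ediv (Int.mul (Int.add (Int.mul a (Int.ofNat (Nat.pow 2 s'))) (Int.mul b R3)) νn) (Int.mul den (Int.ofNat (Nat.succ k))),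
      Int.ediv (Int.mul (Int.add (Int.mul c (Int.ofNat (Nat.pow 2 s'))) (Int.mul d R3)) νn) (Int.mul den (Int.ofNat (Nat.succ k))))
  | (Int.negSucc k, (a, b, c, d)) =>
    (Int.ediv (Int.neg (Int.mul (Int.add (Int.mul a (Int.ofNat (Nat.pow 2 s'))) (Int.mul b R3)) νn)) (Int.mul den (Int.ofNat (Nat.succ k))),
      Int.ediv (Int.mul (Int.add (Int.mul c (Int.ofNat (Nat.pow 2 s'))) (Int.mul d R3)) νn) (Int.mul den (Int.ofNat (Nat.succ k))))

def nthW : List W4 → ℕ → W4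
  | [], _ => ⟨0, 0, 0, 0⟩
  | w :: _, 0 => w
  | _ :: l, Nat.succ k => nthW l k

/-- the windows of the tables, `T = [T_0, T_1, ..]` -/
def tbP (b l1 : ℕ) : List PF → ℕ → List W4
  | [], _ => []
  | p :: l, q => w4 b l1 (Nat.sub (Nat.succ p.z.N) q) p.z :: tbP b l1 l (Nat.succ q)
def tbN (b l1 : ℕ) : List PF → ℕ → List W4
  | [], _ => []
  | p :: l, q => w4 b l1 (Nat.sub p.z.N (Nat.succ q)) p.z :: tbN b l1 l (Nat.succ q)

def wsel (tP tN : List W4) : ℤ → W4
  | Int.ofNat k => nthW tP k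
  | Int.negSucc k => nthW tN (Nat.succ k)

/-- the entries of the rows -/
def entL (tP tN : List W4) (s' : ℕ) (R3 νn den : ℤ) : List (ℤ × Z4) → List (ℤ × ℤ × W4)
  | [] => []
  | x :: l => ((gam s' R3 νn den x).1, (gam s' R3 νn den x).2, wsel tP tN x.1) :: entL tP tN s' R3 νn den l

/-- the entries of the coordinate `i` -/
def entI (b s' l1 K L : ℕ) (R3 D e1 e2 νn den : ℤ) (T1 T2 : List PF) (i : ℕ) : List (ℤ × ℤ × W4) :=
  entL (tbP b l1 T1 0) (tbN b l1 T1 0) s' R3 νn den (colL true K L D e1 e2 i) ++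
    entL (tbP b l1 T2 0) (tbN b l1 T2 0) s' R3 νn den (colL false K L D e1 e2 i)

/-! ## Specification -/

/-- the functions of the tables -/
noncomputable def ff (D : ℝ → ℝ) (q : ℕ) : ℝ → ℂ :=
  if q = 0 then fun t => (D t : ℂ) else fun t => ee (-((q : ℝ) * D t))

/-- a correct table -/
structure TabOK (b s l1 M E : ℕ) (D : ℝ → ℝ) (T : List PF) : Prop where
  cont : Continuous D
  bd : ∀ t, |D t| ≤ 1
  len : M < T.length
  ap : ∀ q p, q ≤ M → T[q]? = some p → AP b s p (ff D q) ∧ p.er ≤ E ∧ l1 + q + 1 ≤ p.z.N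

/-- the exact constant -/
noncomputable def Gam (ν DD : ℝ) (x : ℤ × Z4) : ℂ :=
  if x.1 = 0 then ((ν / (32 * DD) : ℝ) : ℂ) * (-Complex.I * ev4 x.2)
  else if 0 < x.1 then ((ν / (32 * DD) : ℝ) : ℂ) * (ev4 x.2 / (x.1 : ℂ))
  else ((ν / (32 * DD) : ℝ) : ℂ) * ((starRingEnd ℂ) (ev4 x.2) / (x.1 : ℂ))

/-- the centre -/
def gi (N : ℕ) (m : ℤ) : ℕ := if 0 ≤ m then N + 1 - m.natAbs else N - (m.natAbs + 1)

/-- small entries -/
def Sm (D : ℤ) (c : Z4) : Prop := |c.2.1| ≤ 16 * D ∧ |c.2.2.2| ≤ 16 * D ∧ ‖ev4 c‖ ≤ 14 * (D : ℝ)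

/-- the term of an entry -/
noncomputable def teOf (s' : ℕ) (R3 νn den : ℤ) (ν : ℝ) (DD : ℤ) (D : ℝ → ℝ) (T : List PF) (x : ℤ × Z4) : Te :=
  { re := (gam s' R3 νn den x).1
    im := (gam s' R3 νn den x).2
    Γ := Gam ν DD x
    g := gi (T.getD x.1.natAbs ⟨⟨0, 0, 0⟩, 0⟩).z.N x.1
    p := T.getD x.1.natAbs ⟨⟨0, 0, 0⟩, 0⟩
    f := ff D x.1.natAbs }



theorem ev4_re (c : Z4) : (ev4 c).re = (c.1 : ℝ) + (c.2.1 : ℝ) * Real.sqrt 3 := by
  unfold ev4
  simp

theorem ev4_im (c : Z4) : (ev4 c).im = (c.2.2.1 : ℝ) + (c.2.2.2 : ℝ) * Real.sqrt 3 := by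
  unfold ev4
  simp

/-- rounding of one component: `X = a 2^s' + b R3` against `2^s' (a + b √3)` -/
theorem comp_bd {s' : ℕ} {R3 νn νd D : ℤ} (hR : |(R3 : ℝ) - 2 ^ s' * Real.sqrt 3| ≤ 1) (hν : 0 ≤ νn) (hνd : 0 < νd)
    (h6 : 6 * νn ≤ νd) (hD : 0 < D) {a b m : ℤ} (hb : |b| ≤ 16 * D) (hm : 1 ≤ m) :
    |(((a * 2 ^ s' + b * R3) * νn / (32 * νd * D * m) : ℤ) : ℝ) -
      2 ^ s' * (((νn : ℝ) / νd) / (32 * D) * (((a : ℝ) + b * Real.sqrt 3) / m))| ≤ 5 / 4 := by
  have hden : (0 : ℤ) < 32 * νd * D * m := by positivity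
  have hdenR : (0 : ℝ) < 32 * νd * D * m := by exact_mod_cast hden
  set X : ℤ := (a * 2 ^ s' + b * R3) * νn with hX
  have h1 : |((X / (32 * νd * D * m) : ℤ) : ℝ) - (X : ℝ) / (32 * νd * D * m)| ≤ 1 := by
    have h2 := Int.emod_nonneg X hden.ne'
    have h3 := (Int.emod_lt_of_pos X hden).le
    have h4 := Int.emod_add_mul_ediv X (32 * νd * D * m)
    have h5 : ((X % (32 * νd * D * m) + (32 * νd * D * m) * (X / (32 * νd * D * m)) : ℤ) : ℝ) = (X : ℝ) := by rw [h4]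
    have e : ((X / (32 * νd * D * m) : ℤ) : ℝ) - (X : ℝ) / (32 * νd * D * m) =
        -(((X % (32 * νd * D * m) : ℤ) : ℝ) / (32 * νd * D * m)) := by
      push_cast at h5
      field_simp
      linarith
    rw [e, abs_neg, abs_of_nonneg (div_nonneg (by exact_mod_cast h2) hdenR.le), div_le_one hdenR]
    exact_mod_cast h3
  have h2 : |(X : ℝ) / (32 * νd * D * m) - 2 ^ s' * (((νn : ℝ) / νd) / (32 * D) * (((a : ℝ) + b * Real.sqrt 3) / m))| ≤
      1 / 4 := by
    have hνdR : (0 : ℝ) < νd := by exact_mod_cast hνd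
    have hDR : (0 : ℝ) < D := by exact_mod_cast hD
    have hmR : (1 : ℝ) ≤ m := by exact_mod_cast hm
    have hm0 : (0 : ℝ) < m := by linarith
    have e : (X : ℝ) / (32 * νd * D * m) - 2 ^ s' * (((νn : ℝ) / νd) / (32 * D) * (((a : ℝ) + b * Real.sqrt 3) / m)) =
        (b : ℝ) * ((R3 : ℝ) - 2 ^ s' * Real.sqrt 3) * (νn / (32 * νd * D * m)) := by
      rw [hX]
      push_cast
      field_simp
      ring
    rw [e, abs_mul, abs_mul]
    have hb' : |(b : ℝ)| ≤ 16 * D := by exact_mod_cast hb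
    have hνR : (0 : ℝ) ≤ νn := by exact_mod_cast hν
    have h6R : 6 * (νn : ℝ) ≤ νd := by exact_mod_cast h6
    rw [abs_of_nonneg (div_nonneg hνR hdenR.le)]
    have k1 : |(b : ℝ)| * |(R3 : ℝ) - 2 ^ s' * Real.sqrt 3| ≤ 16 * D * 1 :=
      mul_le_mul hb' hR (abs_nonneg _) (by positivity)
    have k2 : (νn : ℝ) / (32 * νd * D * m) ≤ 1 / (192 * D) := by
      rw [div_le_div_iff₀ hdenR (by positivity)]
      have : (νd : ℝ) * 1 ≤ νd * m := mul_le_mul_of_nonneg_left hmR hνdR.le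
      nlinarith
    have k3 := mul_le_mul k1 k2 (div_nonneg hνR hdenR.le) (by positivity)
    refine k3.trans ?_
    have : 16 * (D : ℝ) * 1 * (1 / (192 * D)) = 1 / 12 := by field_simp; norm_num
    rw [this]
    norm_num
  have e : (((X / (32 * νd * D * m) : ℤ)) : ℝ) -
      2 ^ s' * (((νn : ℝ) / νd) / (32 * D) * (((a : ℝ) + b * Real.sqrt 3) / m)) =
      (((X / (32 * νd * D * m) : ℤ) : ℝ) - (X : ℝ) / (32 * νd * D * m)) +
      ((X : ℝ) / (32 * νd * D * m) - 2 ^ s' * (((νn : ℝ) / νd) / (32 * D) * (((a : ℝ) + b * Real.sqrt 3) / m))) := by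
    ring
  rw [e]
  refine (abs_add_le _ _).trans ?_
  linarith

theorem norm_two {z : ℂ} (h1 : |z.re| ≤ 5 / 4) (h2 : |z.im| ≤ 5 / 4) : ‖z‖ ≤ 2 := by
  have h3 := Complex.sq_norm z
  rw [Complex.normSq_apply] at h3
  have h4 := abs_le.1 h1
  have h5 := abs_le.1 h2
  have h6 : z.re * z.re ≤ (5 / 4) * (5 / 4) := by nlinarith
  have h7 : z.im * z.im ≤ (5 / 4) * (5 / 4) := by nlinarith
  nlinarith [norm_nonneg z]

/-- the constants are correct -/
theorem gam_ok {s' : ℕ} {R3 νn νd D : ℤ} (hR : |(R3 : ℝ) - 2 ^ s' * Real.sqrt 3| ≤ 1) (hν : 0 ≤ νn) (hνd : 0 < νd)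
    (h6 : 6 * νn ≤ νd) (hD : 0 < D) {x : ℤ × Z4} (hx : Sm D x.2) :
    ‖(((gam s' R3 νn (32 * νd * D) x).1 : ℂ) + Complex.I * (gam s' R3 νn (32 * νd * D) x).2) -
      (2 ^ s' : ℂ) * Gam ((νn : ℝ) / νd) D x‖ ≤ 2 := by
  obtain ⟨m, a, b, c, d⟩ := x
  obtain ⟨hb, hd, -⟩ := hx
  simp only at hb hd
  have hp : (Int.ofNat (Nat.pow 2 s') : ℤ) = 2 ^ s' := by
    show ((2 ^ s' : ℕ) : ℤ) = _
    push_cast
    rfl
  have h2 : (2 ^ s' : ℂ) = ((2 ^ s' : ℝ) : ℂ) := by push_cast; rfl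
  have hnb : |-b| ≤ 16 * D := by rw [abs_neg]; exact hb
  match m with
  | Int.ofNat 0 =>
    have e1 : gam s' R3 νn (32 * νd * D) (Int.ofNat 0, (a, b, c, d)) =
        ((c * 2 ^ s' + d * R3) * νn / (32 * νd * D), (-((a * 2 ^ s' + b * R3) * νn)) / (32 * νd * D)) := by
      rw [← hp]; rfl
    have q1 := comp_bd (a := c) hR hν hνd h6 hD hd (le_refl 1)
    have q2 := comp_bd (a := -a) hR hν hνd h6 hD hnb (le_refl 1)
    rw [mul_one] at q1 q2
    have e2 : (-a * 2 ^ s' + -b * R3) * νn = -((a * 2 ^ s' + b * R3) * νn) := by ring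
    rw [e2] at q2
    have e3 : Gam ((νn : ℝ) / νd) D (Int.ofNat 0, (a, b, c, d)) =
        (((νn : ℝ) / νd / (32 * D) : ℝ) : ℂ) * (-Complex.I * ev4 (a, b, c, d)) := by
      unfold Gam
      exact if_pos rfl
    rw [e1, e3]
    apply norm_two
    · convert q1 using 2
      rw [h2, Complex.sub_re, Complex.add_re, Complex.re_ofReal_mul, Complex.re_ofReal_mul]
      simp only [Complex.mul_re, Complex.neg_re, Complex.neg_im, Complex.I_re, Complex.I_im, ev4_re, ev4_im,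
        Complex.intCast_re, Complex.intCast_im]
      push_cast
      ring
    · convert q2 using 2
      rw [h2, Complex.sub_im, Complex.add_im, Complex.im_ofReal_mul, Complex.im_ofReal_mul]
      simp only [Complex.mul_im, Complex.neg_re, Complex.neg_im, Complex.I_re, Complex.I_im, ev4_re, ev4_im,
        Complex.intCast_re, Complex.intCast_im]
      push_cast
      ring
  | Int.ofNat (k + 1) =>
    have hk : (1 : ℤ) ≤ ((k + 1 : ℕ) : ℤ) := by push_cast; omega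
    have e1 : gam s' R3 νn (32 * νd * D) (Int.ofNat (k + 1), (a, b, c, d)) =
        ((a * 2 ^ s' + b * R3) * νn / (32 * νd * D * ((k + 1 : ℕ) : ℤ)),
          (c * 2 ^ s' + d * R3) * νn / (32 * νd * D * ((k + 1 : ℕ) : ℤ))) := by
      rw [← hp]; rfl
    have q1 := comp_bd (a := a) hR hν hνd h6 hD hb hk
    have q2 := comp_bd (a := c) hR hν hνd h6 hD hd hk
    have e3 : Gam ((νn : ℝ) / νd) D (Int.ofNat (k + 1), (a, b, c, d)) =
        (((νn : ℝ) / νd / (32 * D) : ℝ) : ℂ) * (ev4 (a, b, c, d) / ((((k + 1 : ℕ) : ℤ) : ℝ) : ℂ)) := by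
      unfold Gam
      have h0 : ¬ (Int.ofNat (k + 1) = 0) := by
        intro h
        have h' : ((k + 1 : ℕ) : ℤ) = 0 := h
        omega
      have h0' : 0 < Int.ofNat (k + 1) := by
        show (0 : ℤ) < ((k + 1 : ℕ) : ℤ)
        omega
      simp only
      rw [if_neg h0, if_pos h0']
      simp
    rw [e1, e3]
    apply norm_two
    · convert q1 using 2
      rw [h2, Complex.sub_re, Complex.add_re, Complex.re_ofReal_mul, Complex.re_ofReal_mul, Complex.div_ofReal_re, ev4_re]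
      simp only [Complex.mul_re, Complex.I_re, Complex.I_im, Complex.intCast_re, Complex.intCast_im]
      ring
    · convert q2 using 2
      rw [h2, Complex.sub_im, Complex.add_im, Complex.im_ofReal_mul, Complex.im_ofReal_mul, Complex.div_ofReal_im, ev4_im]
      simp only [Complex.mul_im, Complex.I_re, Complex.I_im, Complex.intCast_re, Complex.intCast_im]
      ring
  | Int.negSucc k =>
    have hk : (1 : ℤ) ≤ ((k + 1 : ℕ) : ℤ) := by push_cast; omega
    have e1 : gam s' R3 νn (32 * νd * D) (Int.negSucc k, (a, b, c, d)) =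
        ((-((a * 2 ^ s' + b * R3) * νn)) / (32 * νd * D * ((k + 1 : ℕ) : ℤ)),
          (c * 2 ^ s' + d * R3) * νn / (32 * νd * D * ((k + 1 : ℕ) : ℤ))) := by
      rw [← hp]; rfl
    have q1 := comp_bd (a := -a) hR hν hνd h6 hD hnb hk
    have q2 := comp_bd (a := c) hR hν hνd h6 hD hd hk
    have e2 : (-a * 2 ^ s' + -b * R3) * νn = -((a * 2 ^ s' + b * R3) * νn) := by ring
    rw [e2] at q1
    have e3 : Gam ((νn : ℝ) / νd) D (Int.negSucc k, (a, b, c, d)) =
        (((νn : ℝ) / νd / (32 * D) : ℝ) : ℂ) * (-((starRingEnd ℂ) (ev4 (a, b, c, d))) / ((((k + 1 : ℕ) : ℤ) : ℝ) : ℂ)) := by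
      unfold Gam
      have h0 : ¬ (Int.negSucc k = 0) := by simp
      have h0' : ¬ (0 < Int.negSucc k) := by
        rw [Int.negSucc_eq]; omega
      simp only
      rw [if_neg h0, if_neg h0', Int.negSucc_eq]
      push_cast
      rw [div_neg, neg_div]
    rw [e1, e3]
    apply norm_two
    · convert q1 using 2
      rw [h2, Complex.sub_re, Complex.add_re, Complex.re_ofReal_mul, Complex.re_ofReal_mul, Complex.div_ofReal_re]
      simp only [Complex.mul_re, Complex.I_re, Complex.I_im, Complex.intCast_re, Complex.intCast_im, Complex.neg_re,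
        Complex.conj_re, ev4_re]
      push_cast
      ring
    · convert q2 using 2
      rw [h2, Complex.sub_im, Complex.add_im, Complex.im_ofReal_mul, Complex.im_ofReal_mul, Complex.div_ofReal_im]
      simp only [Complex.mul_im, Complex.I_re, Complex.I_im, Complex.intCast_re, Complex.intCast_im, Complex.neg_im,
        Complex.conj_im, ev4_im]
      push_cast
      ring

/-! ### the entries of the columns -/

/-- good unit coefficients -/
def Gd (g : Z4) : Prop := g = (1, 0, 0, 0) ∨ g = (0, 0, 1, 0) ∨ g = (0, 0, -1, 0)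
def Cp (c : Z4) : Prop := |c.1| ≤ 16 ∧ |c.2.1| ≤ 16 ∧ |c.2.2.1| ≤ 16 ∧ |c.2.2.2| ≤ 16

theorem kap_cp (f : Bool) (τ : Ty) (m : ℤ) : Cp (kap f τ m) := by
  have hz : ∀ j : ℤ, ∃ k, z2 j = zt k := fun j => ⟨_, rfl⟩
  have hc : ∀ k, Cp (sc4 4 (zt k)) ∧ Cp (sc4 (-4) (zt k)) ∧ Cp (mul4 (0, 4, 1, 0) (zt k)) ∧ Cp (mul4 (0, 4, -1, 0) (zt k)) := by
    intro k
    rcases k with _ | _ | _ | _ | _ | k <;> simp [zt, sc4, mul4, Cp]
  unfold kap
  cases f <;> cases τ <;> simp only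
  · obtain ⟨k, hk⟩ := hz (2 - 2 * m); rw [hk]; exact (hc k).1
  · obtain ⟨k, hk⟩ := hz (-2 * m); rw [hk]; exact (hc k).2.1
  · obtain ⟨k, hk⟩ := hz (-2 * m - 2); rw [hk]; exact (hc k).1
  · obtain ⟨k, hk⟩ := hz (-2 * m); rw [hk]; exact (hc k).2.2.2
  · obtain ⟨k, hk⟩ := hz (1 - m); rw [hk]; exact (hc k).1
  · obtain ⟨k, hk⟩ := hz (-m); rw [hk]; exact (hc k).1
  · obtain ⟨k, hk⟩ := hz (-m - 1); rw [hk]; exact (hc k).1
  · obtain ⟨k, hk⟩ := hz (-m); rw [hk]; exact (hc k).2.2.1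

theorem norm_om : ‖om‖ = 1 := norm_ee _

theorem norm_kq : ‖kq 2‖ = 7 / 4 := by
  have h := Complex.sq_norm (kq 2)
  rw [Complex.normSq_apply] at h
  have e1 : (kq 2).re = Real.sqrt 3 := by
    unfold kq
    simp only [Complex.add_re, Complex.ofReal_re, Complex.mul_re, Complex.I_re, Complex.I_im, Complex.ofReal_im]
    ring
  have e2 : (kq 2).im = 1 / 4 := by
    unfold kq
    simp only [Complex.add_im, Complex.ofReal_re, Complex.mul_im, Complex.I_re, Complex.I_im, Complex.ofReal_im]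
    norm_num
  rw [e1, e2, Real.mul_self_sqrt (by norm_num)] at h
  have h2 : ‖kq 2‖ ^ 2 = (7 / 4 : ℝ) ^ 2 := by rw [h]; norm_num
  exact (sq_eq_sq₀ (norm_nonneg _) (by norm_num)).1 h2

theorem norm_kap (f : Bool) (τ : Ty) (m : ℤ) : ‖ev4 (kap f τ m)‖ ≤ 14 := by
  obtain ⟨a1, a2, a3, a4⟩ := ev_kap_true m
  obtain ⟨c1, c2, c3, c4⟩ := ev_kap_false m
  have h8 : ‖(8 : ℂ)‖ = 8 := by simp
  cases f <;> cases τ
  · rw [c1, norm_mul, norm_mul, norm_pow, norm_ee, norm_om, h8]; norm_num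
  · rw [c2, norm_neg, norm_mul, norm_ee, h8]; norm_num
  · rw [c3, norm_mul, norm_mul, norm_pow, norm_ee, Complex.norm_conj, norm_om, h8]; norm_num
  · rw [c4, norm_mul, norm_mul, norm_ee, Complex.norm_conj, norm_kq, h8]; norm_num
  · rw [a1, norm_mul, norm_mul, norm_ee, norm_om, h8]; norm_num
  · rw [a2, norm_mul, norm_ee, h8]; norm_num
  · rw [a3, norm_mul, norm_mul, norm_ee, Complex.norm_conj, norm_om, h8]; norm_num
  · rw [a4, norm_mul, norm_mul, norm_ee, norm_kq, h8]; norm_num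

theorem Gd_cp {g κ : Z4} (hg : Gd g) (hκ : Cp κ) : Cp (mul4 g κ) := by
  obtain ⟨h1, h2, h3, h4⟩ := hκ
  rcases hg with h | h | h
  · subst h; simp only [mul4, Cp]
    refine ⟨?_, ?_, ?_, ?_⟩ <;> simpa
  · subst h; simp only [mul4, Cp]
    refine ⟨?_, ?_, ?_, ?_⟩ <;> simpa
  · subst h; simp only [mul4, Cp]
    refine ⟨?_, ?_, ?_, ?_⟩ <;> simpa

theorem Gd_norm {g : Z4} (hg : Gd g) : ‖ev4 g‖ = 1 := by
  rcases hg with h | h | h
  · subst h; rw [Helper85.NS.ev4_one, norm_one]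
  · subst h; rw [Helper85.NS.ev4_I, Complex.norm_I]
  · subst h; rw [Helper85.NS.ev4_nI, norm_neg, Complex.norm_I]

theorem Sm1 {D : ℤ} (hD : 0 < D) {g κ : Z4} (hg : Gd g) (hκ : Cp κ) (hn : ‖ev4 κ‖ ≤ 14) : Sm D (sc4 D (mul4 g κ)) := by
  obtain ⟨-, h2, -, h4⟩ := Gd_cp hg hκ
  refine ⟨?_, ?_, ?_⟩
  · show |D * (mul4 g κ).2.1| ≤ 16 * D
    rw [abs_mul, abs_of_pos hD]
    nlinarith
  · show |D * (mul4 g κ).2.2.2| ≤ 16 * D
    rw [abs_mul, abs_of_pos hD]
    nlinarith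
  · rw [ev4_sc, ev4_mul, norm_mul, norm_mul, Gd_norm hg, one_mul, Complex.norm_intCast]
    have hDR : (0 : ℝ) < D := by exact_mod_cast hD
    rw [abs_of_pos hDR]
    nlinarith

theorem Sm2 {D e1 e2 : ℤ} (he : |e1| + |e2| ≤ D) {g κ : Z4} (hg : Gd g) (hκ : Cp κ) (hn : ‖ev4 κ‖ ≤ 14) :
    Sm D (mul4 (mul4 g κ) (e1, 0, e2, 0)) := by
  obtain ⟨-, h2, -, h4⟩ := Gd_cp hg hκ
  have key : ∀ a c x y : ℤ, |a| ≤ 16 → |c| ≤ 16 → |x| + |y| ≤ D → |a * x + c * y| ≤ 16 * D := by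
    intro a c x y ha hc hxy
    refine (abs_add_le _ _).trans ?_
    rw [abs_mul, abs_mul]
    nlinarith [abs_nonneg x, abs_nonneg y]
  refine ⟨?_, ?_, ?_⟩
  · show |(mul4 g κ).1 * 0 + (mul4 g κ).2.1 * e1 - (mul4 g κ).2.2.1 * 0 - (mul4 g κ).2.2.2 * e2| ≤ 16 * D
    have e : (mul4 g κ).1 * 0 + (mul4 g κ).2.1 * e1 - (mul4 g κ).2.2.1 * 0 - (mul4 g κ).2.2.2 * e2 =
      (mul4 g κ).2.1 * e1 + (-(mul4 g κ).2.2.2) * e2 := by ring
    rw [e]
    exact key _ _ _ _ h2 (by rw [abs_neg]; exact h4) he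
  · show |(mul4 g κ).1 * 0 + (mul4 g κ).2.2.2 * e1 + (mul4 g κ).2.1 * e2 + (mul4 g κ).2.2.1 * 0| ≤ 16 * D
    have e : (mul4 g κ).1 * 0 + (mul4 g κ).2.2.2 * e1 + (mul4 g κ).2.1 * e2 + (mul4 g κ).2.2.1 * 0 =
      (mul4 g κ).2.2.2 * e1 + (mul4 g κ).2.1 * e2 := by ring
    rw [e]
    exact key _ _ _ _ h4 h2 he
  · rw [ev4_mul, ev4_mul, norm_mul, norm_mul, Gd_norm hg, one_mul]
    have h5 : ‖ev4 (e1, 0, e2, 0)‖ ≤ (D : ℝ) := by
      have e : ev4 (e1, 0, e2, 0) = (e1 : ℂ) + Complex.I * (e2 : ℂ) := by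
        unfold ev4; push_cast; ring
      rw [e]
      refine (norm_add_le _ _).trans ?_
      rw [norm_mul, Complex.norm_I, one_mul, Complex.norm_intCast, Complex.norm_intCast]
      exact_mod_cast he
    have := mul_le_mul hn h5 (norm_nonneg _) (by norm_num)
    exact this

theorem mem_terms {f : Bool} {D e1 e2 : ℤ} (hD : 0 < D) (he : |e1| + |e2| ≤ D) {τ : Ty} {l : ℤ} {g : Z4} (hg : Gd g)
    {B : ℤ} (hl : |l| ≤ B) {x : ℤ × Z4} (hx : x ∈ termsK (kap f) D e1 e2 τ l g) : Sm D x.2 ∧ |x.1| ≤ B + 3 := by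
  have hl2 := abs_le.1 hl
  unfold termsK at hx
  simp only [List.mem_cons, List.not_mem_nil, or_false] at hx
  rcases hx with h | h | h
  · subst h
    exact ⟨Sm1 hD hg (kap_cp _ _ _) (norm_kap _ _ _), by rw [abs_le]; constructor <;> simp only <;> omega⟩
  · subst h
    exact ⟨Sm2 he hg (kap_cp _ _ _) (norm_kap _ _ _), by rw [abs_le]; constructor <;> simp only <;> omega⟩
  · subst h
    exact ⟨Sm2 (by rw [abs_neg]; exact he) hg (kap_cp _ _ _) (norm_kap _ _ _), by rw [abs_le]; constructor <;> simp only <;> omega⟩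

theorem mem_fld {K L i : ℕ} (hi : i < nt K L) {x : Ty × ℤ × Z4} (hx : x ∈ fld K L i) :
    Gd x.2.2 ∧ |x.2.1| ≤ ((max K L + 1 : ℕ) : ℤ) := by
  have m1 : K ≤ max K L := le_max_left _ _
  have m2 : L ≤ max K L := le_max_right _ _
  have hh : ∀ (τ : Ty) (c : ℕ), c ≤ L → x ∈ fld.hf τ c → Gd x.2.2 ∧ |x.2.1| ≤ ((max K L + 1 : ℕ) : ℤ) := by
    intro τ c hc hx
    unfold fld.hf at hx
    split_ifs at hx
    · simp only [List.mem_cons, List.not_mem_nil, or_false] at hx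
      subst hx
      exact ⟨Or.inl rfl, by simp only [abs_zero]; positivity⟩
    · simp only [List.mem_cons, List.not_mem_nil, or_false] at hx
      rcases hx with h | h
      · subst h; exact ⟨Or.inl rfl, by rw [abs_le]; constructor <;> simp only <;> omega⟩
      · subst h; exact ⟨Or.inl rfl, by rw [abs_le]; constructor <;> simp only <;> omega⟩
    · simp only [List.mem_cons, List.not_mem_nil, or_false] at hx
      rcases hx with h | h
      · subst h; exact ⟨Or.inr (Or.inl rfl), by rw [abs_le]; constructor <;> simp only <;> omega⟩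
      · subst h; exact ⟨Or.inr (Or.inr rfl), by rw [abs_le]; constructor <;> simp only <;> omega⟩
  unfold fld at hx
  unfold nt at hi
  split_ifs at hx with h1 h2 h3 h4
  · simp only [List.mem_cons, List.not_mem_nil, or_false] at hx
    subst hx
    exact ⟨Or.inl rfl, by simp only [abs_zero]; positivity⟩
  · simp only [List.mem_cons, List.not_mem_nil, or_false] at hx
    subst hx
    unfold bp at h2
    exact ⟨Or.inl rfl, by rw [abs_le]; constructor <;> simp only <;> omega⟩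
  · simp only [List.mem_cons, List.not_mem_nil, or_false] at hx
    subst hx
    unfold bp at h2
    exact ⟨Or.inr (Or.inl rfl), by rw [abs_le]; constructor <;> simp only <;> omega⟩
  · exact hh _ _ (by unfold br at h4; omega) hx
  · exact hh _ _ (by unfold br; omega) hx

theorem mem_col {f : Bool} {K L : ℕ} {D e1 e2 : ℤ} (hD : 0 < D) (he : |e1| + |e2| ≤ D) {i : ℕ} (hi : i < nt K L)
    {x : ℤ × Z4} (hx : x ∈ colL f K L D e1 e2 i) : Sm D x.2 ∧ |x.1| ≤ ((max K L + 4 : ℕ) : ℤ) := by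
  unfold colL colK at hx
  obtain ⟨y, hy, hx⟩ := List.mem_flatMap.1 hx
  obtain ⟨h1, h2⟩ := mem_fld hi hy
  obtain ⟨h3, h4⟩ := mem_terms hD he h1 h2 hx
  exact ⟨h3, h4.trans (by push_cast; omega)⟩

theorem len_col (f : Bool) (K L : ℕ) (D e1 e2 : ℤ) (i : ℕ) : (colL f K L D e1 e2 i).length ≤ 6 := by
  have h1 : (fld K L i).length ≤ 2 := by
    have hh : ∀ (τ : Ty) (c : ℕ), (fld.hf τ c).length ≤ 2 := by
      intro τ c
      unfold fld.hf
      split_ifs <;> simp
    unfold fld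
    split_ifs
    · simp
    · simp
    · simp
    · exact hh _ _
    · exact hh _ _
  unfold colL colK
  have h2 : ∀ l : List (Ty × ℤ × Z4), (l.flatMap fun x => termsK (kap f) D e1 e2 x.1 x.2.1 x.2.2).length = 3 * l.length := by
    intro l
    induction l with
    | nil => rfl
    | cons x l ih =>
      rw [List.flatMap_cons, List.length_append, ih, List.length_cons]
      simp [termsK]
      ring
  rw [h2]
  omega

/-! ### the windows -/

theorem nth_tbP (b l1 : ℕ) (T : List PF) : ∀ (q k : ℕ) (p : PF), T[k]? = some p →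
    nthW (tbP b l1 T q) k = w4 b l1 (p.z.N + 1 - (q + k)) p.z := by
  induction T with
  | nil => intro q k p h; simp at h
  | cons a T ih =>
    intro q k p h
    cases k with
    | zero =>
      simp only [List.getElem?_cons_zero, Option.some.injEq] at h
      subst h
      rfl
    | succ k =>
      simp only [List.getElem?_cons_succ] at h
      have e : nthW (tbP b l1 (a :: T) q) (k + 1) = nthW (tbP b l1 T (q + 1)) k := rfl
      rw [e, ih (q + 1) k p h]
      congr 2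
      omega

theorem nth_tbN (b l1 : ℕ) (T : List PF) : ∀ (q k : ℕ) (p : PF), T[k]? = some p →
    nthW (tbN b l1 T q) k = w4 b l1 (p.z.N - (q + k + 1)) p.z := by
  induction T with
  | nil => intro q k p h; simp at h
  | cons a T ih =>
    intro q k p h
    cases k with
    | zero =>
      simp only [List.getElem?_cons_zero, Option.some.injEq] at h
      subst h
      rfl
    | succ k =>
      simp only [List.getElem?_cons_succ] at h
      have e : nthW (tbN b l1 (a :: T) q) (k + 1) = nthW (tbN b l1 T (q + 1)) k := rfl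
      rw [e, ih (q + 1) k p h]
      congr 2
      omega

theorem wsel_eq (b l1 : ℕ) (T : List PF) (m : ℤ) (h : m.natAbs < T.length) :
    wsel (tbP b l1 T 0) (tbN b l1 T 0) m =
      w4 b l1 (gi (T.getD m.natAbs ⟨⟨0, 0, 0⟩, 0⟩).z.N m) (T.getD m.natAbs ⟨⟨0, 0, 0⟩, 0⟩).z := by
  have hk : ∀ k, k < T.length → T[k]? = some (T.getD k ⟨⟨0, 0, 0⟩, 0⟩) := by
    intro k hk
    rw [List.getD_eq_getElem?_getD, List.getElem?_eq_getElem hk]
    rfl
  match m with
  | Int.ofNat k =>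
    have h' : k < T.length := h
    show nthW (tbP b l1 T 0) k = _
    rw [nth_tbP b l1 T 0 k _ (hk k h')]
    unfold gi
    rw [if_pos (show (0 : ℤ) ≤ Int.ofNat k from Int.natCast_nonneg k), Nat.zero_add]
    rfl
  | Int.negSucc k =>
    have h' : k + 1 < T.length := h
    show nthW (tbN b l1 T 0) (k + 1) = _
    rw [nth_tbN b l1 T 0 (k + 1) _ (hk (k + 1) h')]
    unfold gi
    rw [if_neg (by rw [Int.negSucc_eq]; omega), Nat.zero_add]
    rfl

end Helper96.SH
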