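import Pool.Agent.Helper96.SH.Fl
import Pool.Agent.Helper71.SH.HCol

/-!
# Project RC, SHARP, cell engine: the rows of `D2` and `e_0` of a cell

Tables as closed constants (`tP1 .. tN2`), the columns as lists (`mkC`), the `H` part of helper71, the error as a natural
number (`eF`).
-/

set_option autoImplicit false

open MeasureTheory Set Filter Topology

namespace Helper96.SH

open Helper54.RC.Fast Helper76.RC.TPoly
open Helper49.LT hiding sg
open Helper56.RC (fc)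
open Helper95.SH (e0I nt bp br pV rV sV HkA CD qk LR)
open Helper85.NS (colL)
open Helper25.SH.Mat (row)
open Helper71.SH (hcol hU hw)

/-- the entries of the coordinate `i`, the tables are arguments -/
def entJ (tP1 tN1 tP2 tN2 : List W4) (s' K L : ℕ) (R3 D e1 e2 νn den : ℤ) (i : ℕ) : List (ℤ × ℤ × W4) :=
  entL tP1 tN1 s' R3 νn den (colL true K L D e1 e2 i) ++ entL tP2 tN2 s' R3 νn den (colL false K L D e1 e2 i)

theorem entJ_eq (b s' l1 K L : ℕ) (R3 D e1 e2 νn den : ℤ) (T1 T2 : List PF) (i : ℕ) :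
    entJ (tbP b l1 T1 0) (tbN b l1 T1 0) (tbP b l1 T2 0) (tbN b l1 T2 0) s' K L R3 D e1 e2 νn den i =
      entI b s' l1 K L R3 D e1 e2 νn den T1 T2 i := rfl

/-- the list `f 0, .., f (n - 1)`, in front of `A` -/
def mkC (f : ℕ → ℕ) : ℕ → List ℕ → List ℕ
  | 0, A => A
  | Nat.succ n, A => mkC f n (f n :: A)

theorem mkC_eq (f : ℕ → ℕ) : ∀ (n : ℕ) (A : List ℕ), mkC f n A = (List.range n).map f ++ A := by
  intro n
  induction n with
  | zero => intro A; rfl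
  | succ n ih =>
    intro A
    show mkC f n (f n :: A) = _
    rw [ih, List.range_succ, List.map_append, List.append_assoc]
    rfl

theorem mkC_get {f : ℕ → ℕ} {n i : ℕ} (hi : i < n) : (mkC f n [])[i]? = some (f i) := by
  rw [mkC_eq, List.append_nil, List.getElem?_map, List.getElem?_range hi]
  rfl

theorem mkC_length (f : ℕ → ℕ) (n : ℕ) : (mkC f n []).length = n := by
  rw [mkC_eq, List.append_nil, List.length_map, List.length_range]

/-- the column `i` of `X`, of `Y`: entries `A`, unit entries `H` -/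
def cX (b s' t l1 : ℕ) (ent : ℕ → List (ℤ × ℤ × W4)) (hc : ℕ → List (ℕ × ℤ × ℤ)) (i : ℕ) : ℕ :=
  flC b t l1 (rwX b s' l1 (ent i) (hc i))
def cY (b s' t l1 : ℕ) (ent : ℕ → List (ℤ × ℤ × W4)) (hc : ℕ → List (ℕ × ℤ × ℤ)) (i : ℕ) : ℕ :=
  flC b t l1 (rwY b s' l1 (ent i) (hc i))

/-- the error, in units of the last place -/
def eF (E t : ℕ) : ℕ := Nat.add (Nat.div (Nat.add (Nat.mul 2 E) 9) (Nat.pow 2 t)) 2

theorem eF_ge (E t : ℕ) : (2 * E + 9 : ℝ) / 2 ^ t + 1 ≤ (eF E t : ℕ) := by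
  have e : eF E t = (2 * E + 9) / 2 ^ t + 2 := rfl
  rw [e]
  have h1 : 2 * E + 9 < 2 ^ t * ((2 * E + 9) / 2 ^ t + 1) := by
    have := Nat.div_add_mod (2 * E + 9) (2 ^ t)
    have h2 := Nat.mod_lt (2 * E + 9) (show 0 < 2 ^ t by positivity)
    rw [Nat.mul_add, Nat.mul_one]
    omega
  have h2 : (2 * E + 9 : ℝ) ≤ 2 ^ t * (((2 * E + 9) / 2 ^ t : ℕ) + 1 : ℝ) := by exact_mod_cast h1.le
  have h3 : (2 * E + 9 : ℝ) / 2 ^ t ≤ (((2 * E + 9) / 2 ^ t : ℕ) + 1 : ℝ) := by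
    rw [div_le_iff₀ (by positivity)]
    linarith
  push_cast
  linarith

theorem LR.mono {n : ℕ} {q : ℝ} {X : (ℕ → ℝ) → ℝ} {R : ℕ → ℤ} {e e' : ℝ} (h : LR n q X R e) (he : e ≤ e') :
    LR n q X R e' := by
  obtain ⟨ρ, h1, h2⟩ := h
  exact ⟨ρ, h1, fun i hi => (h2 i hi).trans he⟩

/-- nothing at the position `0` -/
theorem hU_zero {K L : ℕ} (hL : Even L) {e1 e2 : ℤ} {D : ℕ} (hD : 0 < D) (hη : ‖hw D e1 e2‖ ≤ 1) (S i : ℕ) :
    ((hU K L e1 e2 D S i).map (xU 0)).sum = 0 := by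
  refine List.sum_eq_zero fun x hx => ?_
  rw [List.mem_map] at hx
  obtain ⟨u, hu, rfl⟩ := hx
  have := (Helper71.SH.hU_ok hL hD hη S i u hu).1
  unfold xU
  rw [if_neg (by omega)]

theorem hw_le {D : ℕ} (hD : 0 < D) {e1 e2 : ℤ} (he : |e1| + |e2| ≤ D) : ‖hw D e1 e2‖ ≤ 1 := by
  unfold hw
  have hD' : (0 : ℝ) < D := by exact_mod_cast hD
  rw [norm_div, Complex.norm_natCast, div_le_one hD']
  refine (norm_add_le _ _).trans ?_
  rw [norm_mul, Complex.norm_I, one_mul, Complex.norm_intCast, Complex.norm_intCast]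
  exact_mod_cast he

/-- **THE ROWS OF `D2` AND `e_0` OF A CELL** -/
theorem LR_cell {c : CD} {b s s' t l1 M E K L R N : ℕ} {D1 D1' D2 D2' : ℝ → ℝ} {T1 T2 : List PF}
    (c1 : c.Th1 = fun x => x - D1 x) (c1' : c.Th1' = fun x => 1 - D1' x)
    (c2 : c.Th2 = fun x => x - D2 x) (c2' : c.Th2' = fun x => 1 - D2' x) (d1 : DD D1 D1') (d2 : DD D2 D2')
    (hT1 : TabOK b s l1 M E D1 T1) (hT2 : TabOK b s l1 M E D2 T2) (hM : max K L + 4 ≤ M) (hNN : max K L + 1 ≤ N)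
    (hK : ¬ Even K) (hL : Even L) (hl1 : L + 2 ≤ l1)
    {νn νd e1 e2 : ℤ} {D : ℕ} (hν : 0 < νn) (hνd : 0 < νd) (h6 : 6 * νn ≤ νd) (hD : 0 < D) (he : |e1| + |e2| ≤ D)
    (hη : c.P.eta = hw D e1 e2) (h0 : ∀ n, fc c.P.a0 n = 0) (hnu : c.P.nu = (νn : ℝ) / νd)
    (hN : okN b s s' E R = true) (ht : t ≤ b) (hts : t ≤ s)
    {ent : ℕ → List (ℤ × ℤ × W4)}
    (hent : ∀ i < nt K L, ent i = entI b s' l1 K L (Int.ofNat R) (D : ℤ) e1 e2 νn (32 * νd * (D : ℤ)) T1 T2 i)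
    {X Y : List ℕ}
    (hX : X = mkC (cX b s' t l1 ent (hcol K L e1 e2 D (s + s'))) (nt K L) [])
    (hY : Y = mkC (cY b s' t l1 ent (hcol K L e1 e2 D (s + s'))) (nt K L) []) :
    (∀ k : ℕ, 2 * k + 2 ≤ l1 →
      LR (nt K L) (2 ^ (s - t)) (fun v => (qk c N (pV K L v) (rV K L v) (sV K v) k).re)
        (row b (AL b (2 * k + 2) X Y) 0) (eF E t : ℕ) ∧
      LR (nt K L) (2 ^ (s - t)) (fun v => (qk c N (pV K L v) (rV K L v) (sV K v) k).im)
        (row b (AL b (2 * k + 2) X Y) 1) (eF E t : ℕ)) ∧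
    LR (nt K L) (2 ^ (s - t)) (fun v => c.P.nu / 2 * e0I c.P c.Th1 c.Th1' c.Th2 c.Th2' N (pV K L v) (rV K L v) (sV K v))
      (row b X 0) (eF E t : ℕ) := by
  have hDZ : (0 : ℤ) < (D : ℤ) := by exact_mod_cast hD
  have hη' : c.P.eta = ((e1 : ℂ) + e2 * Complex.I) / ((D : ℤ) : ℂ) := by
    rw [hη]
    unfold hw
    rw [mul_comm, Int.cast_natCast]
  have hw1 := hw_le hD he
  have hUm : ∀ i, (hU K L e1 e2 D (s + s') i).map iU = hcol K L e1 e2 D (s + s') i :=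
    fun i => Helper71.SH.hU_map K L e1 e2 D (s + s') i
  obtain ⟨g1, g2⟩ := LR_D2 (X := X) (Y := Y) c1 c1' c2 c2' d1 d2 hT1 hT2 hM hNN hK hL hν hνd h6 hDZ he hη' hnu hN
    (U := hU K L e1 e2 D (s + s'))
    (fun i _ u hu => Helper71.SH.hU_okU hL hD hw1 hl1 i u hu)
    (fun i _ => Helper71.SH.hU_len K L e1 e2 D (s + s') i)
    (fun v _ k _ => Helper71.SH.HkA_hU hL hD hη h0 (s + s') v k)
    (fun i _ => hU_zero hL hD hw1 (s + s') i) ht hts
    (fun i hi => by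
      rw [hX, mkC_get hi]
      unfold cX qX
      rw [hent i hi, ← hUm i])
    (fun i hi => by
      rw [hY, mkC_get hi]
      unfold cY qY
      rw [hent i hi, ← hUm i])
  have e := eF_ge E t
  exact ⟨fun k hk => ⟨LR.mono (g1 k hk).1 e, LR.mono (g1 k hk).2 e⟩, LR.mono g2 e⟩

end Helper96.SH
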