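import Pool.Agent.Helper96.SH.D2b
import Pool.Agent.Helper76.RC.EJ

/-!
# Project RC, SHARP, cell engine: the tables from helper76's powers

`T0P`: the displacement `D` itself at the scale `2 ^ s`. `TabM`: the list `T0P :: ps`, `ps` the powers
`e^{- i q D}`, `q = 1, 2, ..`, is a correct table.
-/

set_option autoImplicit false

namespace Helper96.SH

open Helper54.RC.Fast Helper76.RC.TPoly Helper76.RC.TrD
open Helper49.LT hiding sg

/-- the displacement at the scale `2 ^ s` -/
def T0P (b s u Q N : ℕ) (l : List (ℤ × ℤ)) : PF :=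
  ⟨padF b (Nat.sub N l.length) (flF b u (smF b (Nat.div (Nat.pow 2 (Nat.add s u)) (Nat.mul 2 Q)) (zD b l))),
    Nat.succ (Nat.mul 2 (len l.length))⟩

/-- its check -/
def okT0 (b r s u Q N : ℕ) (l : List (ℤ × ℤ)) : Bool :=
  bif Nat.ble 1 Q then
    bif okD b l then
      bif Nat.ble r (Nat.succ b) then
        bif oks b r (Nat.div (Nat.pow 2 (Nat.add s u)) (Nat.mul 2 Q)) (zD b l) then
          bif Nat.ble (nrF b r (zD b l)) (Nat.mul 2 Q) then
            bif Nat.ble (Nat.mul 2 Q) (Nat.pow 2 u) then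
              bif Nat.ble u b then Nat.ble l.length N else false
            else false
          else false
        else false
      else false
    else false
  else false

theorem okT0_sound {b r s u Q N : ℕ} {l : List (ℤ × ℤ)} (h : okT0 b r s u Q N l = true) :
    AP b s (T0P b s u Q N l) (fun t => (Dt Q l t : ℂ)) ∧ (T0P b s u Q N l).z.N = N ∧ ∀ t, |Dt Q l t| ≤ 1 := by
  have hb : ∀ (x y : Bool), (bif x then y else false) = true ↔ x = true ∧ y = true := by
    intro x y; cases x <;> simp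
  unfold okT0 at h
  rw [hb, hb, hb, hb, hb, hb, hb] at h
  obtain ⟨h1, h2, h3, h4, h5, h6, h7, h8⟩ := h
  have hQ : 0 < Q := Nat.le_of_ble_eq_true h1
  have hr : r ≤ b + 1 := Nat.le_of_ble_eq_true h3
  have h5 : nrF b r (zD b l) ≤ 2 * Q := Nat.le_of_ble_eq_true h5
  have h6 : 2 * Q ≤ 2 ^ u := Nat.le_of_ble_eq_true h6
  have h7 : u ≤ b := Nat.le_of_ble_eq_true h7
  have h8 : l.length ≤ N := Nat.le_of_ble_eq_true h8
  have hQR : (0 : ℝ) < Q := by exact_mod_cast hQ
  obtain ⟨z1, z2⟩ := zD_sound b Q hQ l h2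
  have bd : ∀ t, |Dt Q l t| ≤ 1 := by
    intro t
    have k1 := norm_V_le b r hr (zD b l) t
    rw [z2, Complex.norm_real, Real.norm_eq_abs, abs_mul, abs_of_pos (by linarith : (0 : ℝ) < 2 * Q)] at k1
    have k2 : ((nrF b r (zD b l) : ℕ) : ℝ) ≤ 2 * Q := by exact_mod_cast h5
    have k3 : 2 * (Q : ℝ) * |Dt Q l t| ≤ 2 * Q * 1 := by linarith
    exact le_of_mul_le_mul_left k3 (by linarith)
  set c := Nat.div (Nat.pow 2 (Nat.add s u)) (Nat.mul 2 Q) with hc
  have hc' : c = 2 ^ (s + u) / (2 * Q) := rfl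
  obtain ⟨s1, s2⟩ := smF_sound b r hr c (zD b l) z1 h4
  obtain ⟨f1, f2⟩ := flF_sound b u h7 (smF b c (zD b l))
  obtain ⟨p1, p2⟩ := padF_sound b (Nat.sub N l.length) (flF b u (smF b c (zD b l))) f1
  refine ⟨⟨p1, fun t => ?_⟩, ?_, bd⟩
  · have e1 : (T0P b s u Q N l).z = padF b (Nat.sub N l.length) (flF b u (smF b c (zD b l))) := rfl
    have e2 : ((T0P b s u Q N l).er : ℝ) = 2 * (len l.length : ℝ) + 1 := by
      have : (T0P b s u Q N l).er = 2 * len l.length + 1 := rfl
      rw [this]; push_cast; ring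
    rw [e1, e2, p2]
    have q1 := f2 t
    rw [s2, z2] at q1
    have e3 : (len (smF b c (zD b l)).N : ℝ) = len l.length := rfl
    rw [e3] at q1
    have hS : (0 : ℝ) < 2 ^ u := by positivity
    -- the constant
    have q2 : |(c : ℝ) * (2 * Q) - 2 ^ (s + u)| ≤ 2 * Q := by
      have a1 := Nat.div_add_mod (2 ^ (s + u)) (2 * Q)
      have a2 := Nat.mod_lt (2 ^ (s + u)) (show 0 < 2 * Q by omega)
      rw [← hc'] at a1
      have a3 : (2 * (Q : ℝ)) * c + ((2 ^ (s + u) % (2 * Q) : ℕ) : ℝ) = 2 ^ (s + u) := by exact_mod_cast a1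
      have a4 : ((2 ^ (s + u) % (2 * Q) : ℕ) : ℝ) ≤ 2 * Q := by exact_mod_cast a2.le
      have a5 : (0 : ℝ) ≤ ((2 ^ (s + u) % (2 * Q) : ℕ) : ℝ) := Nat.cast_nonneg _
      rw [abs_le]
      constructor <;> linarith
    have q3 : ‖(c : ℂ) * ((2 * Q * Dt Q l t : ℝ) : ℂ) - (2 ^ (s + u) : ℂ) * (Dt Q l t : ℂ)‖ ≤ 2 * Q := by
      have e : (c : ℂ) * ((2 * Q * Dt Q l t : ℝ) : ℂ) - (2 ^ (s + u) : ℂ) * (Dt Q l t : ℂ) =
          ((((c : ℝ) * (2 * Q) - 2 ^ (s + u)) * Dt Q l t : ℝ) : ℂ) := by push_cast; ring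
      rw [e, Complex.norm_real, Real.norm_eq_abs, abs_mul]
      calc |(c : ℝ) * (2 * Q) - 2 ^ (s + u)| * |Dt Q l t| ≤ 2 * Q * 1 :=
            mul_le_mul q2 (bd t) (abs_nonneg _) (by linarith)
        _ = 2 * Q := mul_one _
    have h6R : (2 * (Q : ℝ)) ≤ 2 ^ u := by exact_mod_cast h6
    set W := V b (flF b u (smF b c (zD b l))) t with hW
    have q4 : 2 ^ u * ‖W - (2 ^ s : ℂ) * (Dt Q l t : ℂ)‖ ≤ 2 ^ u * (2 * (len l.length : ℝ) + 1) := by
      have e : 2 ^ u * ‖W - (2 ^ s : ℂ) * (Dt Q l t : ℂ)‖ =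
          ‖((c : ℂ) * ((2 * Q * Dt Q l t : ℝ) : ℂ) - (2 ^ (s + u) : ℂ) * (Dt Q l t : ℂ)) -
            ((c : ℂ) * ((2 * Q * Dt Q l t : ℝ) : ℂ) - (2 ^ u : ℂ) * W)‖ := by
        have hn : (2 : ℝ) ^ u = ‖(2 ^ u : ℂ)‖ := by simp
        rw [hn, ← norm_mul, pow_add]
        congr 1
        ring
      rw [e]
      refine (norm_sub_le _ _).trans ?_
      linarith
    exact le_of_mul_le_mul_left q4 hS
  · show Nat.add (flF b u (smF b c (zD b l))).N (Nat.sub N l.length) = N
    show l.length + (N - l.length) = N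
    omega

/-- windows and errors of a table -/
def chkT (l1 E : ℕ) : List PF → ℕ → Bool
  | [], _ => true
  | p :: T, q => bif Nat.ble p.er E then bif Nat.ble (Nat.add l1 (Nat.succ q)) p.z.N then chkT l1 E T (Nat.succ q) else false
      else false

theorem chkT_sound (l1 E : ℕ) (T : List PF) : ∀ q, chkT l1 E T q = true → ∀ k p, T[k]? = some p →
    p.er ≤ E ∧ l1 + (q + k) + 1 ≤ p.z.N := by
  induction T with
  | nil => intro q _ k p hp; simp at hp
  | cons a T ih =>
    intro q h k p hp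
    have e : chkT l1 E (a :: T) q = bif Nat.ble a.er E then bif Nat.ble (Nat.add l1 (Nat.succ q)) a.z.N then
      chkT l1 E T (Nat.succ q) else false else false := rfl
    rw [e] at h
    cases h1 : Nat.ble a.er E with
    | false => rw [h1] at h; simp at h
    | true =>
      rw [h1] at h
      cases h2 : Nat.ble (Nat.add l1 (Nat.succ q)) a.z.N with
      | false => rw [h2] at h; simp at h
      | true =>
        rw [h2] at h
        have h3 : l1 + (q + 1) ≤ a.z.N := Nat.le_of_ble_eq_true h2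
        cases k with
        | zero =>
          simp only [List.getElem?_cons_zero, Option.some.injEq] at hp
          subst hp
          exact ⟨Nat.le_of_ble_eq_true h1, by omega⟩
        | succ k =>
          simp only [List.getElem?_cons_succ] at hp
          obtain ⟨g1, g2⟩ := ih (q + 1) h k p hp
          exact ⟨g1, by omega⟩

/-- the check of the whole table -/
def okTM (b r s u Q N l1 M E : ℕ) (l : List (ℤ × ℤ)) (ps : List PF) : Bool :=
  bif okT0 b r s u Q N l then
    bif chkT l1 E (T0P b s u Q N l :: ps) 0 then Nat.ble M ps.length else false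
  else false

/-- **a correct table** -/
theorem TabM {b r s u Q N l1 M E : ℕ} {l : List (ℤ × ℤ)} {ps : List PF}
    (hps : ∀ (k : ℕ) (p : PF), ps[k]? = some p → AP b s p (fun t => ee (-(((1 + k * 1 : ℕ) : ℝ) * Dt Q l t))))
    (h : okTM b r s u Q N l1 M E l ps = true) : TabOK b s l1 M E (Dt Q l) (T0P b s u Q N l :: ps) := by
  have hb : ∀ (x y : Bool), (bif x then y else false) = true ↔ x = true ∧ y = true := by
    intro x y; cases x <;> simp
  unfold okTM at h
  rw [hb, hb] at h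
  obtain ⟨h1, h2, h3⟩ := h
  have h3 : M ≤ ps.length := Nat.le_of_ble_eq_true h3
  obtain ⟨t1, t2, t3⟩ := okT0_sound h1
  refine ⟨continuous_Dt Q l, t3, by rw [List.length_cons]; omega, fun q p _ hp => ?_⟩
  obtain ⟨c1, c2⟩ := chkT_sound l1 E _ 0 h2 q p hp
  refine ⟨?_, c1, by omega⟩
  cases q with
  | zero =>
    simp only [List.getElem?_cons_zero, Option.some.injEq] at hp
    subst hp
    unfold ff
    rw [if_pos rfl]
    exact t1
  | succ q =>
    simp only [List.getElem?_cons_succ] at hp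
    have := hps q p hp
    rw [ff_pos (Dt Q l) (Nat.succ_ne_zero q)]
    have e : ((1 + q * 1 : ℕ) : ℝ) = ((q + 1 : ℕ) : ℝ) := by push_cast; ring
    rw [e] at this
    exact this

/-- the displacement of helper76's alignments -/
theorem DD_Dt (Q : ℕ) (l : List (ℤ × ℤ)) : DD (Dt Q l) (Dt Q (der 1 l)) :=
  ⟨hasDerivAt_Dt Q l, continuous_Dt Q (der 1 l), Dt_per Q l⟩

end Helper96.SH
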