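import Pool.Agent.Helper96.SH.D2F
import Pool.Agent.Helper96.SH.TabM
import Pool.Agent.Helper64.SH.EntF
import Pool.Agent.Helper51.SH.LowT
import Pool.Agent.Helper70.SH.Asm

/-!
# Project RC, SHARP, cell engine: the rows of `D2` and `e_0` of a record

`LR_cell0`: the rows with the window `max K L`. `TabR`: a table from the powers of a cell file. `QD`: the parameters,
`okQD` the check, `LR_rec` the rows for the record.
-/

set_option autoImplicit false

open MeasureTheory Set Filter Topology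

namespace Helper96.SH

open Helper54.RC.Fast Helper76.RC.TPoly Helper76.RC.TrD
open Helper49.LT hiding sg
open Helper49.Cell
open Helper56.RC (fc)
open Helper95.SH (e0I nt bp br pV rV sV HkA CD qk LR arrV qk_win e0I_win)
open Helper25.SH.Mat (row)
open Helper71.SH (hcol hw)
open Helper70.SH (cd Len)
open Pool.Agent.Helper51.SH (Tab)
open Pool.Agent.Helper64.SH (entF entF_entI)

/-- the rows with the window `max K L` -/
theorem LR_cell0 {c : CD} {b s s' t l1 M E K L R : ℕ} {D1 D1' D2 D2' : ℝ → ℝ} {T1 T2 : List PF}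
    (c1 : c.Th1 = fun x => x - D1 x) (c1' : c.Th1' = fun x => 1 - D1' x)
    (c2 : c.Th2 = fun x => x - D2 x) (c2' : c.Th2' = fun x => 1 - D2' x) (d1 : DD D1 D1') (d2 : DD D2 D2')
    (hT1 : TabOK b s l1 M E D1 T1) (hT2 : TabOK b s l1 M E D2 T2) (hM : max K L + 4 ≤ M)
    (hK : ¬ Even K) (hL : Even L) (hl1 : L + 2 ≤ l1)
    {νn νd e1 e2 : ℤ} {D : ℕ} (hν : 0 < νn) (hνd : 0 < νd) (h6 : 6 * νn ≤ νd) (hD : 0 < D) (he : |e1| + |e2| ≤ D)
    (hη : c.P.eta = hw D e1 e2) (h0 : ∀ n, fc c.P.a0 n = 0) (hnu : c.P.nu = (νn : ℝ) / νd)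
    (hN : okN b s s' E R = true) (ht : t ≤ b) (hts : t ≤ s)
    {ent : ℕ → List (ℤ × ℤ × W4)}
    (hent : ∀ i < nt K L, ent i = entI b s' l1 K L (Int.ofNat R) (D : ℤ) e1 e2 νn (32 * νd * (D : ℤ)) T1 T2 i)
    {X Y : List ℕ}
    (hX : X = mkC (cX b s' t l1 ent (hcol K L e1 e2 D (s + s'))) (nt K L) [])
    (hY : Y = mkC (cY b s' t l1 ent (hcol K L e1 e2 D (s + s'))) (nt K L) []) :
    (∀ k : ℕ, 2 * k + 2 ≤ l1 →
      LR (nt K L) (2 ^ (s - t)) (fun v => (qk c (max K L) (pV K L v) (rV K L v) (sV K v) k).re)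
        (row b (AL b (2 * k + 2) X Y) 0) (eF E t : ℕ) ∧
      LR (nt K L) (2 ^ (s - t)) (fun v => (qk c (max K L) (pV K L v) (rV K L v) (sV K v) k).im)
        (row b (AL b (2 * k + 2) X Y) 1) (eF E t : ℕ)) ∧
    LR (nt K L) (2 ^ (s - t))
      (fun v => c.P.nu / 2 * e0I c.P c.Th1 c.Th1' c.Th2 c.Th2' (max K L) (pV K L v) (rV K L v) (sV K v))
      (row b X 0) (eF E t : ℕ) := by
  obtain ⟨g1, g2⟩ := LR_cell (N := max K L + 1) c1 c1' c2 c2' d1 d2 hT1 hT2 hM le_rfl hK hL hl1 hν hνd h6 hD he hη h0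
    hnu hN ht hts hent hX hY
  have q : ∀ v k, qk c (max K L + 1) (pV K L v) (rV K L v) (sV K v) k = qk c (max K L) (pV K L v) (rV K L v) (sV K v) k :=
    fun v k => qk_win c (Nat.le_succ _) (arrV (le_max_left _ _) (le_max_right _ _) v) k
  have e : ∀ v, e0I c.P c.Th1 c.Th1' c.Th2 c.Th2' (max K L + 1) (pV K L v) (rV K L v) (sV K v) =
      e0I c.P c.Th1 c.Th1' c.Th2 c.Th2' (max K L) (pV K L v) (rV K L v) (sV K v) :=
    fun v => e0I_win (Nat.le_succ _) c.P (arrV (le_max_left _ _) (le_max_right _ _) v) _ _ _ _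
  refine ⟨fun k hk => ⟨?_, ?_⟩, ?_⟩
  · exact ((g1 k hk).1).congr (fun v _ => by rw [q]) fun _ _ => rfl
  · exact ((g1 k hk).2).congr (fun v _ => by rw [q]) fun _ _ => rfl
  · exact g2.congr (fun v _ => by rw [e]) fun _ _ => rfl

/-- **a table from the powers of a cell file** -/
theorem TabR {b r s u Q N l1 M E m : ℕ} {l : List (ℤ × ℤ)} {ps : List PF} (hps : Tab b s Q l ps)
    (h : okTM b r s u Q N l1 M E l (ps.take m) = true) :
    TabOK b s l1 M E (Dt Q l) (T0P b s u Q N l :: ps.take m) := by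
  refine TabM (fun k p hp => ?_) h
  have := hps.tk m k p hp
  rw [mul_one]
  exact this

/-- the parameters of the rows: base, scale of the tables, scale of `√3`, shift, window, number and error of the
tables, `⌊√3 2 ^ s'⌋` -/
structure QD where
  b : ℕ
  s : ℕ
  s' : ℕ
  t : ℕ
  l1 : ℕ
  M : ℕ
  E : ℕ
  R3 : ℕ

/-- **the check of the parameters** -/
def okQD (R : Rec) (K L : ℕ) (q : QD) : Bool :=
  bif okN q.b q.s q.s' q.E q.R3 then
    bif Nat.ble (Nat.add (max K L) 4) q.M then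
      bif Nat.ble (Nat.add L 2) q.l1 then
        bif Nat.beq (Nat.add q.t 56) q.s then
          bif Nat.ble q.t q.b then
            bif decide (0 < R.nu) then
              bif decide (6 * R.nu ≤ 100000) then decide (|R.e1| + |R.e2| ≤ 100000)
              else false
            else false
          else false
        else false
      else false
    else false
  else false

theorem okQD_iff {R : Rec} {K L : ℕ} {q : QD} (h : okQD R K L q = true) :
    okN q.b q.s q.s' q.E q.R3 = true ∧ max K L + 4 ≤ q.M ∧ L + 2 ≤ q.l1 ∧ q.t + 56 = q.s ∧ q.t ≤ q.b ∧ 0 < R.nu ∧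
      6 * R.nu ≤ 100000 ∧ |R.e1| + |R.e2| ≤ 100000 := by
  have hb : ∀ (x y : Bool), (bif x then y else false) = true ↔ x = true ∧ y = true := by
    intro x y; cases x <;> simp
  unfold okQD at h
  rw [hb, hb, hb, hb, hb, hb, hb, decide_eq_true_iff, decide_eq_true_iff, decide_eq_true_iff] at h
  obtain ⟨h1, h2, h3, h4, h5, h6, h7, h8⟩ := h
  exact ⟨h1, Nat.le_of_ble_eq_true h2, Nat.le_of_ble_eq_true h3, Nat.eq_of_beq_eq_true h4, Nat.le_of_ble_eq_true h5,
    h6, h7, h8⟩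

/-- the entries of the coordinate `i`, the tables are arguments (closed constants of the cell) -/
def entR (R : Rec) (K L : ℕ) (q : QD) (tP1 tN1 tP2 tN2 : List W4) (i : ℕ) : List (ℤ × ℤ × W4) :=
  entF tP1 tN1 tP2 tN2 q.s' K L (Int.ofNat q.R3) (Int.ofNat 100000) R.e1 R.e2 R.nu (Int.ofNat 320000000000) i

/-- the columns `X` and `Y` -/
def colX (R : Rec) (K L : ℕ) (q : QD) (tP1 tN1 tP2 tN2 : List W4) : List ℕ :=
  mkC (cX q.b q.s' q.t q.l1 (entR R K L q tP1 tN1 tP2 tN2) (hcol K L R.e1 R.e2 100000 (Nat.add q.s q.s'))) (nt K L) []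
def colY (R : Rec) (K L : ℕ) (q : QD) (tP1 tN1 tP2 tN2 : List W4) : List ℕ :=
  mkC (cY q.b q.s' q.t q.l1 (entR R K L q tP1 tN1 tP2 tN2) (hcol K L R.e1 R.e2 100000 (Nat.add q.s q.s'))) (nt K L) []

theorem colX_length (R : Rec) (K L : ℕ) (q : QD) (tP1 tN1 tP2 tN2 : List W4) :
    (colX R K L q tP1 tN1 tP2 tN2).length = nt K L := mkC_length _ _
theorem colY_length (R : Rec) (K L : ℕ) (q : QD) (tP1 tN1 tP2 tN2 : List W4) :
    (colY R K L q tP1 tN1 tP2 tN2).length = nt K L := mkC_length _ _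

/-- the error of the rows -/
def QD.e (q : QD) : ℕ := eF q.E q.t

/-- **THE ROWS OF `D2` AND `e_0` OF A RECORD** -/
theorem LR_rec {R : Rec} {C : Crt} (h : R.ok C = true) {K0 : ℕ} (len : Len R K0) (s0 : ℕ) {K H : ℕ} (hK : ¬ Even K)
    {q : QD} (hq : okQD R K (2 * H) q = true) {Q1 Q2 : List PF}
    (h1 : TabOK q.b q.s q.l1 q.M q.E (Dt 1000 R.D1) Q1) (h2 : TabOK q.b q.s q.l1 q.M q.E (Dt 1000 R.D2) Q2)
    {tP1 tN1 tP2 tN2 : List W4} (a1 : tP1 = tbP q.b q.l1 Q1 0) (a2 : tN1 = tbN q.b q.l1 Q1 0)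
    (a3 : tP2 = tbP q.b q.l1 Q2 0) (a4 : tN2 = tbN q.b q.l1 Q2 0)
    {X Y : List ℕ} (hX : X = colX R K (2 * H) q tP1 tN1 tP2 tN2) (hY : Y = colY R K (2 * H) q tP1 tN1 tP2 tN2) :
    (∀ k : ℕ, 2 * k + 2 ≤ q.l1 →
      LR (nt K (2 * H)) (2 ^ 56) (fun v => (qk (cd R h len s0) (max K (2 * H)) (pV K (2 * H) v) (rV K (2 * H) v) (sV K v) k).re)
        (row q.b (AL q.b (2 * k + 2) X Y) 0) (q.e : ℕ) ∧
      LR (nt K (2 * H)) (2 ^ 56) (fun v => (qk (cd R h len s0) (max K (2 * H)) (pV K (2 * H) v) (rV K (2 * H) v) (sV K v) k).im)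
        (row q.b (AL q.b (2 * k + 2) X Y) 1) (q.e : ℕ)) ∧
    LR (nt K (2 * H)) (2 ^ 56)
      (fun v => (cd R h len s0).P.nu / 2 * e0I (cd R h len s0).P (cd R h len s0).Th1 (cd R h len s0).Th1'
        (cd R h len s0).Th2 (cd R h len s0).Th2' (max K (2 * H)) (pV K (2 * H) v) (rV K (2 * H) v) (sV K v))
      (row q.b X 0) (q.e : ℕ) := by
  obtain ⟨k1, k2, k3, k4, k5, k6, k7, k8⟩ := okQD_iff hq
  have hst : q.s - q.t = 56 := by omega
  have hν0 : (0 : ℤ) < 100000 := by norm_num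
  have h0 : ∀ n, fc (cd R h len s0).P.a0 n = 0 := by
    intro n
    show fc (fun _ => (0 : ℝ)) n = 0
    unfold fc
    simp
  have hη : (cd R h len s0).P.eta = hw 100000 R.e1 R.e2 := by
    show R.par.eta = _
    rw [Helper70.SH.par_eta]
    unfold hw
    norm_num
  have hnu : (cd R h len s0).P.nu = (R.nu : ℝ) / ((100000 : ℤ) : ℝ) := by
    show R.par.nu = _
    rw [Helper70.SH.par_nu]
    norm_num
  have hent : ∀ i < nt K (2 * H), entR R K (2 * H) q tP1 tN1 tP2 tN2 i =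
      entI q.b q.s' q.l1 K (2 * H) (Int.ofNat q.R3) ((100000 : ℕ) : ℤ) R.e1 R.e2 R.nu (32 * 100000 * ((100000 : ℕ) : ℤ)) Q1 Q2 i := by
    intro i _
    rw [a1, a2, a3, a4]
    have e1 : (32 * 100000 * ((100000 : ℕ) : ℤ) : ℤ) = Int.ofNat 320000000000 := by norm_num
    rw [e1]
    exact entF_entI q.b q.s' q.l1 K (2 * H) (Int.ofNat q.R3) (Int.ofNat 100000) R.e1 R.e2 R.nu (Int.ofNat 320000000000) Q1 Q2 i
  have g := LR_cell0 (c := cd R h len s0) (K := K) (L := 2 * H) (D := 100000) (νn := R.nu) (νd := 100000)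
    (D1 := Dt 1000 R.D1) (D1' := Dt 1000 (der 1 R.D1)) (D2 := Dt 1000 R.D2) (D2' := Dt 1000 (der 1 R.D2))
    (X := X) (Y := Y) rfl rfl rfl rfl (DD_Dt 1000 R.D1) (DD_Dt 1000 R.D2) h1 h2 k2 hK (even_two_mul H) k3 k6 hν0 k7
    (by norm_num) (by exact_mod_cast k8) hη h0 hnu k1 k5 (by omega) hent hX hY
  rw [hst] at g
  exact g

end Helper96.SH
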