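import Pool.Agent.Helper96.SH.D2

/-!
# Project RC, SHARP, cell engine: the rows of `D2` and of `e_0`, the theorem
-/

set_option autoImplicit false

open MeasureTheory Set Filter Topology

namespace Helper96.SH

open Helper54.RC.Fast Helper76.RC.TPoly
open Helper49.LT hiding sg
open Helper49.RC (om)
open Helper95.RC
open Helper95.SH (En Rn En_D En_neg Rn_neg Rn_zero_D wF WA e0I nt bp br pV rV sV C1 C2 HkA CD qk LR Arr wF_zero)
open Helper87.RC (BM fc_eq fc_sub fc_cmul fc_add fc_conj)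
open Helper56.RC (fc)
open Helper49.Sharp (Par)
open Helper85.NS (evL evL_cons evL_nil evL_append colL colK termsK fld kap Ty zt z2 ev_kap_true ev_kap_false col_C1 col_C2)
open Pool.Agent.Helper40.NR (Z4 ev4 add4 sc4 rot4 cj4 mul4 ev4_add ev4_sc ev4_rot ev4_cj ev4_mul)

/-- the displacement `D` of an alignment -/
structure DD (D D' : ℝ → ℝ) : Prop where
  hd : ∀ x, HasDerivAt D (D' x) x
  hc : Continuous D'
  hp : ∀ x, D (x + 2 * Real.pi) = D x

theorem DD.cont {D D' : ℝ → ℝ} (h : DD D D') : Continuous D :=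
  continuous_iff_continuousAt.2 fun x => (h.hd x).continuousAt

/-- the contribution of an entry -/
noncomputable def psi (κ : ℝ) (D D' : ℝ → ℝ) (l : ℤ) (m : ℤ) (z : ℂ) : ℂ :=
  (κ : ℂ) * (z * Rn (fun x => x - D x) (fun x => 1 - D' x) m (l + 1) +
    (starRingEnd ℂ) (z * Rn (fun x => x - D x) (fun x => 1 - D' x) m (1 - l)))

theorem psi_zero (κ : ℝ) (D D' : ℝ → ℝ) (l m : ℤ) : psi κ D D' l m 0 = 0 := by
  unfold psi; simp

theorem psi_add (κ : ℝ) (D D' : ℝ → ℝ) (l m : ℤ) (z w : ℂ) :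
    psi κ D D' l m (z + w) = psi κ D D' l m z + psi κ D D' l m w := by
  unfold psi
  rw [add_mul, add_mul, map_add]
  ring

theorem ff_pos (D : ℝ → ℝ) {q : ℕ} (hq : q ≠ 0) : ff D q = fun t => ee (-((q : ℝ) * D t)) := by
  unfold ff; rw [if_neg hq]

/-- a positive entry -/
theorem fc_ff_pos (D : ℝ → ℝ) {m : ℤ} (hm : 0 < m) (k : ℤ) :
    fc (ff D m.natAbs) (k - m) = En (fun x => x - D x) m k := by
  rw [En_D, ff_pos D (by omega)]
  have : ((m.natAbs : ℕ) : ℝ) = (m : ℝ) := by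
    have h : ((m.natAbs : ℕ) : ℤ) = m := Int.natAbs_of_nonneg hm.le
    rw [← Int.cast_natCast, h]
  rw [this]

/-- the exact value of the term of an entry -/
theorem xT_teOf {D D' : ℝ → ℝ} (hD : DD D D') {s' : ℕ} {R3 νn den DZ : ℤ} {ν : ℝ} {T : List PF} {x : ℤ × Z4}
    (hN : x.1.natAbs + 1 ≤ (T.getD x.1.natAbs ⟨⟨0, 0, 0⟩, 0⟩).z.N) {l : ℕ} (hl : Even l) :
    xT l (teOf s' R3 νn den ν DZ D T x) = psi (ν / (32 * DZ)) D D' l x.1 (ev4 x.2) := by
  set p := T.getD x.1.natAbs ⟨⟨0, 0, 0⟩, 0⟩ with hp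
  have hg : (teOf s' R3 νn den ν DZ D T x).g = gi p.z.N x.1 := rfl
  have hpp : (teOf s' R3 νn den ν DZ D T x).p = p := rfl
  have hf : (teOf s' R3 νn den ν DZ D T x).f = ff D x.1.natAbs := rfl
  have hG : (teOf s' R3 νn den ν DZ D T x).Γ = Gam ν DZ x := rfl
  unfold xT
  rw [hg, hpp, hf, hG]
  set m := x.1 with hm
  set z := ev4 x.2 with hz
  unfold psi
  obtain ⟨j, hj⟩ := hl
  rcases lt_trichotomy m 0 with h | h | h
  · -- negative
    have e1 : ((gi p.z.N m : ℕ) : ℤ) + l - p.z.N = ((l : ℤ) - 1) - (-m) := by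
      unfold gi; rw [if_neg (by omega)]; omega
    have e2 : ((gi p.z.N m : ℕ) : ℤ) - l - p.z.N = (-(l : ℤ) - 1) - (-m) := by
      unfold gi; rw [if_neg (by omega)]; omega
    have ea : m.natAbs = (-m).natAbs := by rw [Int.natAbs_neg]
    rw [e1, e2, ea, fc_ff_pos D (by omega : 0 < -m), fc_ff_pos D (by omega : 0 < -m)]
    have n1 : En (fun x => x - D x) (-m) ((l : ℤ) - 1) = (starRingEnd ℂ) (En (fun x => x - D x) m (1 - l)) := by
      rw [En_neg]; congr 2; ring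
    have n2 : En (fun x => x - D x) (-m) (-(l : ℤ) - 1) = (starRingEnd ℂ) (En (fun x => x - D x) m (l + 1)) := by
      rw [En_neg]; congr 2; ring
    rw [n1, n2]
    have r : ∀ k, Rn (fun x => x - D x) (fun x => 1 - D' x) m k = En (fun x => x - D x) m k / (m : ℂ) := by
      intro k; unfold Rn; rw [if_neg (by omega)]
    rw [r, r]
    unfold Gam
    rw [if_neg (by omega), if_neg (by omega)]
    rw [← hm, ← hz]
    simp only [map_mul, map_div₀, Complex.conj_ofReal, Complex.conj_conj, map_intCast]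
    ring
  · -- zero
    have e1 : ((gi p.z.N m : ℕ) : ℤ) + l - p.z.N = (l : ℤ) + 1 := by
      unfold gi; rw [if_pos (by omega), h]; simp; omega
    have e2 : ((gi p.z.N m : ℕ) : ℤ) - l - p.z.N = 1 - (l : ℤ) := by
      unfold gi; rw [if_pos (by omega), h]; simp; omega
    rw [e1, e2, h]
    have f0 : ff D (Int.natAbs 0) = fun t => (D t : ℂ) := by
      unfold ff; rw [if_pos (by rfl)]
    rw [f0, Rn_zero_D hD.hd hD.hc hD.hp (by omega), Rn_zero_D hD.hd hD.hc hD.hp (by omega)]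
    unfold Gam
    rw [if_pos (by rw [← hm]; exact h), ← hz]
    simp only [map_mul, map_neg, Complex.conj_I, Complex.conj_ofReal]
    ring
  · -- positive
    have e1 : ((gi p.z.N m : ℕ) : ℤ) + l - p.z.N = ((l : ℤ) + 1) - m := by
      unfold gi; rw [if_pos (by omega)]; omega
    have e2 : ((gi p.z.N m : ℕ) : ℤ) - l - p.z.N = (1 - (l : ℤ)) - m := by
      unfold gi; rw [if_pos (by omega)]; omega
    rw [e1, e2, fc_ff_pos D h, fc_ff_pos D h]
    have r : ∀ k, Rn (fun x => x - D x) (fun x => 1 - D' x) m k = En (fun x => x - D x) m k / (m : ℂ) := by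
      intro k; unfold Rn; rw [if_neg (by omega)]
    rw [r, r]
    unfold Gam
    rw [if_neg (by rw [← hm]; omega), if_pos (by rw [← hm]; exact h), ← hm, ← hz]
    simp only [map_mul, map_div₀, Complex.conj_ofReal, map_intCast]
    ring

/-- the sum over the frequencies of the contributions of a list -/
theorem sum_psi_evL (κ : ℝ) (D D' : ℝ → ℝ) (l : ℤ) (I : Finset ℤ) (C : List (ℤ × Z4)) (hC : ∀ x ∈ C, x.1 ∈ I) :
    ∑ m ∈ I, psi κ D D' l m (evL C m) = (C.map fun x => psi κ D D' l x.1 (ev4 x.2)).sum := by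
  induction C with
  | nil => simp [psi_zero]
  | cons x C ih =>
    have h1 := ih fun y hy => hC y (List.mem_cons_of_mem _ hy)
    simp only [List.map_cons, List.sum_cons, evL_cons, psi_add, Finset.sum_add_distrib]
    rw [h1]
    congr 1
    rw [Finset.sum_eq_single x.1]
    · rw [if_pos rfl]
    · intro m _ hm
      rw [if_neg (Ne.symm hm), psi_zero]
    · intro h; exact absurd (hC x List.mem_cons_self) h

/-- the part of one family -/
theorem wF_col {κ : ℝ} {D D' : ℝ → ℝ} {n M : ℕ} {DZ : ℤ} (hDZ : DZ ≠ 0) {l : ℤ} {a : ℤ → ℂ} {v : ℕ → ℝ}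
    {C : ℕ → List (ℤ × Z4)} {ν : ℝ} (hκ : κ = ν / (32 * DZ))
    (ha : ∀ m, (8 * DZ : ℂ) * a m = ∑ i ∈ Finset.range n, (v i : ℂ) * evL (C i) m)
    (hC : ∀ i < n, ∀ x ∈ C i, x.1 ∈ Finset.Icc (-(M : ℤ)) M) :
    -(ν / 2 : ℂ) * wF (fun x => x - D x) (fun x => 1 - D' x) M a l =
      ∑ i ∈ Finset.range n, (v i : ℂ) * ((C i).map fun x => psi κ D D' l x.1 (ev4 x.2)).sum := by
  have hDc : (DZ : ℂ) ≠ 0 := by exact_mod_cast hDZ
  have h1 : ∀ m, psi κ D D' l m ((8 * DZ : ℂ) * a m) = ∑ i ∈ Finset.range n, (v i : ℂ) * psi κ D D' l m (evL (C i) m) := by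
    intro m
    rw [ha m]
    have : ∀ s : Finset ℕ, psi κ D D' l m (∑ i ∈ s, (v i : ℂ) * evL (C i) m) =
        ∑ i ∈ s, (v i : ℂ) * psi κ D D' l m (evL (C i) m) := by
      intro s
      induction s using Finset.induction_on with
      | empty => simp [psi_zero]
      | insert i s hi ih =>
        rw [Finset.sum_insert hi, Finset.sum_insert hi, psi_add, ih]
        congr 1
        unfold psi
        simp only [map_mul, Complex.conj_ofReal]
        ring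
    exact this _
  have h2 : -(ν / 2 : ℂ) * wF (fun x => x - D x) (fun x => 1 - D' x) M a l =
      ∑ m ∈ Finset.Icc (-(M : ℤ)) M, psi κ D D' l m ((8 * DZ : ℂ) * a m) := by
    unfold wF
    rw [← mul_assoc, Finset.mul_sum]
    refine Finset.sum_congr rfl fun m _ => ?_
    unfold psi
    rw [hκ]
    have c8 : (starRingEnd ℂ) (8 * DZ : ℂ) = 8 * DZ := by
      rw [map_mul, map_intCast]
      congr 1
      exact Complex.conj_ofReal 8
    simp only [map_mul] at c8 ⊢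
    rw [c8]
    push_cast
    field_simp
    ring
  rw [h2, Finset.sum_congr rfl fun m _ => h1 m, Finset.sum_comm]
  refine Finset.sum_congr rfl fun i hi => ?_
  rw [← Finset.mul_sum, sum_psi_evL κ D D' l _ _ (hC i (Finset.mem_range.1 hi))]

/-! ### the numbers -/

/-- numerical conditions -/
def okN (b s s' E R : ℕ) : Bool :=
  bif Nat.ble (Nat.mul 8 (Nat.add (Nat.pow 2 s) E)) (Nat.pow 2 s') then
    bif Nat.ble E (Nat.pow 2 s) then
      bif Nat.ble (Nat.add (Nat.add s s') 3) b then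
        bif Nat.ble 3 s then
          bif Nat.ble (Nat.mul R R) (Nat.mul 3 (Nat.pow 4 s')) then
            Nat.ble (Nat.mul 3 (Nat.pow 4 s')) (Nat.mul (Nat.succ R) (Nat.succ R))
          else false
        else false
      else false
    else false
  else false

theorem okN_iff {b s s' E R : ℕ} (h : okN b s s' E R = true) : 8 * (2 ^ s + E) ≤ 2 ^ s' ∧ E ≤ 2 ^ s ∧
    s + s' + 3 ≤ b ∧ 3 ≤ s ∧ R * R ≤ 3 * 4 ^ s' ∧ 3 * 4 ^ s' ≤ (R + 1) * (R + 1) := by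
  have hb : ∀ (x y : Bool), (bif x then y else false) = true ↔ x = true ∧ y = true := by
    intro x y; cases x <;> simp
  unfold okN at h
  rw [hb, hb, hb, hb, hb] at h
  obtain ⟨h1, h2, h3, h4, h5, h6⟩ := h
  exact ⟨Nat.le_of_ble_eq_true h1, Nat.le_of_ble_eq_true h2, Nat.le_of_ble_eq_true h3, Nat.le_of_ble_eq_true h4,
    Nat.le_of_ble_eq_true h5, Nat.le_of_ble_eq_true h6⟩

theorem R3_ok {s' R : ℕ} (h1 : R * R ≤ 3 * 4 ^ s') (h2 : 3 * 4 ^ s' ≤ (R + 1) * (R + 1)) :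
    |(((R : ℕ) : ℤ) : ℝ) - 2 ^ s' * Real.sqrt 3| ≤ 1 := by
  have e1 : (2 ^ s' * Real.sqrt 3) ^ 2 = ((3 * 4 ^ s' : ℕ) : ℝ) := by
    rw [mul_pow, Real.sq_sqrt (by norm_num), ← pow_mul, mul_comm s' 2, pow_mul]
    push_cast
    norm_num
    ring
  have h1' : ((R : ℝ)) ^ 2 ≤ (2 ^ s' * Real.sqrt 3) ^ 2 := by
    rw [e1, sq]
    exact_mod_cast h1
  have h2' : (2 ^ s' * Real.sqrt 3) ^ 2 ≤ ((R : ℝ) + 1) ^ 2 := by
    rw [e1, sq]
    exact_mod_cast h2
  have h0 : (0 : ℝ) ≤ 2 ^ s' * Real.sqrt 3 := by positivity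
  have k1 := abs_le_of_sq_le_sq' h1' h0
  have k2 := abs_le_of_sq_le_sq' h2' (by positivity)
  rw [abs_le]
  push_cast
  constructor
  · linarith [k2.2]
  · linarith [k1.2]

theorem norm_Gam_le {ν : ℝ} (h0 : 0 ≤ ν) (h6 : ν ≤ 1 / 6) {D : ℤ} (hD : 0 < D) {x : ℤ × Z4} (hx : Sm D x.2) :
    ‖Gam ν D x‖ ≤ 1 / 12 := by
  have hDR : (0 : ℝ) < D := by exact_mod_cast hD
  have key : ∀ z : ℂ, ‖z‖ ≤ 14 * (D : ℝ) → ‖((ν / (32 * (D : ℝ)) : ℝ) : ℂ) * z‖ ≤ 1 / 12 := by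
    intro z hz
    rw [norm_mul, Complex.norm_real, Real.norm_of_nonneg (by positivity)]
    calc ν / (32 * (D : ℝ)) * ‖z‖ ≤ ν / (32 * (D : ℝ)) * (14 * D) := mul_le_mul_of_nonneg_left hz (by positivity)
      _ = ν * 14 / 32 := by field_simp
      _ ≤ 1 / 12 := by linarith
  have hn := hx.2.2
  have hd : ∀ (z : ℂ) (m : ℤ), m ≠ 0 → ‖z‖ ≤ 14 * (D : ℝ) → ‖z / (m : ℂ)‖ ≤ 14 * (D : ℝ) := by
    intro z m hm hz
    have h1 : (1 : ℝ) ≤ ‖(m : ℂ)‖ := by
      rw [Complex.norm_intCast]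
      have : (1 : ℤ) ≤ |m| := Int.one_le_abs hm
      exact_mod_cast this
    rw [norm_div]
    exact (div_le_self (norm_nonneg _) h1).trans hz
  unfold Gam
  by_cases h1 : x.1 = 0
  · rw [if_pos h1]
    refine key _ ?_
    rw [norm_mul, norm_neg, Complex.norm_I, one_mul]
    exact hn
  · rw [if_neg h1]
    by_cases h2 : 0 < x.1
    · rw [if_pos h2]
      exact key _ (hd _ _ h1 hn)
    · rw [if_neg h2]
      exact key _ (hd _ _ h1 (by rw [Complex.norm_conj]; exact hn))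

/-! ### the terms are correct -/

theorem te_ok {b s s' l1 M E : ℕ} {R : ℕ} {D : ℝ → ℝ} {T : List PF} (hT : TabOK b s l1 M E D T)
    {νn νd DZ : ℤ} (hν : 0 ≤ νn) (hνd : 0 < νd) (h6 : 6 * νn ≤ νd) (hD : 0 < DZ)
    (hR : |(((R : ℕ) : ℤ) : ℝ) - 2 ^ s' * Real.sqrt 3| ≤ 1) {x : ℤ × Z4} (hx : Sm DZ x.2) (hm : x.1.natAbs ≤ M) :
    (teOf s' (R : ℤ) νn (32 * νd * DZ) ((νn : ℝ) / νd) DZ D T x).ok b s s' l1 E (1 / 12) ∧
      x.1.natAbs + 1 ≤ (T.getD x.1.natAbs ⟨⟨0, 0, 0⟩, 0⟩).z.N := by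
  have hl := hT.len
  have hk : T[x.1.natAbs]? = some (T.getD x.1.natAbs ⟨⟨0, 0, 0⟩, 0⟩) := by
    rw [List.getD_eq_getElem?_getD, List.getElem?_eq_getElem (by omega)]
    rfl
  obtain ⟨a1, a2, a3⟩ := hT.ap _ _ hm hk
  set p := T.getD x.1.natAbs ⟨⟨0, 0, 0⟩, 0⟩ with hp
  have hνR : (0 : ℝ) ≤ (νn : ℝ) / νd := div_nonneg (by exact_mod_cast hν) (by exact_mod_cast hνd.le)
  have h6R : (νn : ℝ) / νd ≤ 1 / 6 := by
    have h1 : (0 : ℝ) < νd := by exact_mod_cast hνd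
    rw [div_le_div_iff₀ h1 (by norm_num)]
    have : (6 : ℝ) * νn ≤ νd := by exact_mod_cast h6
    linarith
  refine ⟨⟨?_, a1, a2, ?_, ?_, gam_ok hR hν hνd h6 hD hx, norm_Gam_le hνR h6R hD hx⟩, by omega⟩
  · show BM (ff D x.1.natAbs) 1
    by_cases h0 : x.1.natAbs = 0
    · rw [h0]
      unfold ff
      rw [if_pos rfl]
      refine ⟨(Complex.continuous_ofReal.comp hT.cont).measurable, fun t => ?_⟩
      rw [Complex.norm_real]
      exact hT.bd t
    · rw [ff_pos D h0]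
      exact BM_ee hT.cont _
  · show l1 ≤ gi p.z.N x.1
    unfold gi
    split_ifs <;> omega
  · show gi p.z.N x.1 + l1 ≤ 2 * p.z.N
    unfold gi
    split_ifs <;> omega

theorem entL_eq {b l1 s' : ℕ} {R3 νn den DZ : ℤ} {ν : ℝ} {D : ℝ → ℝ} {T : List PF} {C : List (ℤ × Z4)}
    (hC : ∀ x ∈ C, x.1.natAbs < T.length) :
    entL (tbP b l1 T 0) (tbN b l1 T 0) s' R3 νn den C = (C.map (teOf s' R3 νn den ν DZ D T)).map (iT b l1) := by
  induction C with
  | nil => rfl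
  | cons x C ih =>
    rw [List.map_cons, List.map_cons, ← ih fun y hy => hC y (List.mem_cons_of_mem _ hy)]
    show ((gam s' R3 νn den x).1, (gam s' R3 νn den x).2, wsel (tbP b l1 T 0) (tbN b l1 T 0) x.1) :: _ = _
    rw [wsel_eq b l1 T x.1 (hC x List.mem_cons_self)]
    rfl

/-! ### the theorem -/

/-- the packed rows of the coordinate `i` -/
def qX (b s' l1 K L R : ℕ) (D e1 e2 νn den : ℤ) (T1 T2 : List PF) (hc : ℕ → List (ℕ × ℤ × ℤ)) (i : ℕ) : ℕ :=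
  rwX b s' l1 (entI b s' l1 K L (Int.ofNat R) D e1 e2 νn den T1 T2 i) (hc i)
def qY (b s' l1 K L R : ℕ) (D e1 e2 νn den : ℤ) (T1 T2 : List PF) (hc : ℕ → List (ℕ × ℤ × ℤ)) (i : ℕ) : ℕ :=
  rwY b s' l1 (entI b s' l1 K L (Int.ofNat R) D e1 e2 νn den T1 T2 i) (hc i)

/-- the exact coefficient of the coordinate `i` -/
noncomputable def qC (ν : ℝ) (DZ : ℤ) (D1 D1' D2 D2' : ℝ → ℝ) (K L : ℕ) (e1 e2 : ℤ) (U : ℕ → List Ue) (l i : ℕ) : ℂ :=
  ((colL true K L DZ e1 e2 i).map fun x => psi (ν / (32 * DZ)) D1 D1' l x.1 (ev4 x.2)).sum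
    + ((colL false K L DZ e1 e2 i).map fun x => psi (ν / (32 * DZ)) D2 D2' l x.1 (ev4 x.2)).sum
    + ((U i).map (xU l)).sum

/-- **the packed rows are the coefficients** -/
theorem q_rows {b s s' l1 M E K L R : ℕ} {D1 D1' D2 D2' : ℝ → ℝ} {T1 T2 : List PF} (d1 : DD D1 D1') (d2 : DD D2 D2')
    (hT1 : TabOK b s l1 M E D1 T1) (hT2 : TabOK b s l1 M E D2 T2) (hM : max K L + 4 ≤ M)
    {νn νd DZ e1 e2 : ℤ} (hν : 0 ≤ νn) (hνd : 0 < νd) (h6 : 6 * νn ≤ νd) (hD : 0 < DZ) (he : |e1| + |e2| ≤ DZ)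
    (hN : okN b s s' E R = true) {U : ℕ → List Ue} (hU1 : ∀ i < nt K L, ∀ u ∈ U i, u.ok s s' l1 1)
    (hU2 : ∀ i < nt K L, (U i).length ≤ 3) {i : ℕ} (hi : i < nt K L) {l : ℕ} (hl : l ≤ l1) (hle : Even l) :
    ‖((dz b l (qX b s' l1 K L R DZ e1 e2 νn (32 * νd * DZ) T1 T2 (fun i => (U i).map iU) i) : ℂ) +
      Complex.I * (dz b l (qY b s' l1 K L R DZ e1 e2 νn (32 * νd * DZ) T1 T2 (fun i => (U i).map iU) i) : ℂ)) -
      (2 ^ s : ℂ) * qC ((νn : ℝ) / νd) DZ D1 D1' D2 D2' K L e1 e2 U l i‖ ≤ 2 * E + 9 := by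
  obtain ⟨n1, n2, n3, n4, n5, n6⟩ := okN_iff hN
  have hR := R3_ok n5 n6
  set ν : ℝ := (νn : ℝ) / νd with hνν
  set L1 := (colL true K L DZ e1 e2 i).map (teOf s' (R : ℤ) νn (32 * νd * DZ) ν DZ D1 T1) with hL1
  set L2 := (colL false K L DZ e1 e2 i).map (teOf s' (R : ℤ) νn (32 * νd * DZ) ν DZ D2 T2) with hL2
  have hx : ∀ f, ∀ x ∈ colL f K L DZ e1 e2 i, Sm DZ x.2 ∧ x.1.natAbs ≤ M := by
    intro f x hx
    obtain ⟨h1, h2⟩ := mem_col hD he hi hx
    obtain ⟨h3, h4⟩ := abs_le.1 h2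
    exact ⟨h1, by omega⟩
  have ok : ∀ t ∈ L1 ++ L2, t.ok b s s' l1 E (1 / 12) := by
    intro t ht
    rcases List.mem_append.1 ht with h | h
    · obtain ⟨x, hx1, rfl⟩ := List.mem_map.1 h
      obtain ⟨a1, a2⟩ := hx true x hx1
      exact (te_ok hT1 hν hνd h6 hD hR a1 a2).1
    · obtain ⟨x, hx1, rfl⟩ := List.mem_map.1 h
      obtain ⟨a1, a2⟩ := hx false x hx1
      exact (te_ok hT2 hν hνd h6 hD hR a1 a2).1
  have len : ((L1 ++ L2).length : ℝ) ≤ 12 := by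
    have h1 := len_col true K L DZ e1 e2 i
    have h2 := len_col false K L DZ e1 e2 i
    have : (L1 ++ L2).length ≤ 12 := by
      rw [List.length_append, hL1, hL2, List.length_map, List.length_map]
      omega
    exact_mod_cast this
  have lenU : ((U i).length : ℝ) ≤ 3 := by exact_mod_cast hU2 i hi
  -- numbers
  have r1 : (8 : ℝ) * (2 ^ s + E) ≤ 2 ^ s' := by exact_mod_cast n1
  have r2 : (E : ℝ) ≤ 2 ^ s := by exact_mod_cast n2
  have r3 : (2 : ℝ) ^ (s + s' + 3) ≤ 2 ^ b := pow_le_pow_right₀ (by norm_num) n3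
  have r4 : (8 : ℝ) ≤ 2 ^ s := by
    calc (8 : ℝ) = 2 ^ 3 := by norm_num
      _ ≤ 2 ^ s := pow_le_pow_right₀ (by norm_num) n4
  have rE : (0 : ℝ) ≤ E := Nat.cast_nonneg _
  have e8 : (2 : ℝ) ^ (s + s' + 3) = 8 * (2 ^ s * 2 ^ s') := by rw [pow_add, pow_add]; norm_num; ring
  have r5 : (64 : ℝ) ≤ 2 ^ s' := by nlinarith
  have r6 : (8 : ℝ) * 2 ^ s' ≤ 2 ^ s * 2 ^ s' := mul_le_mul_of_nonneg_right r4 (by positivity)
  have hb : 2 * (2 ^ s + E) < 2 ^ b := by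
    have : (2 : ℝ) * (2 ^ s + E) < 2 ^ b := by nlinarith
    exact_mod_cast this
  have hs : s' ≤ b := by omega
  have hB : ((L1 ++ L2).length : ℝ) * (2 * ((2 ^ s' * (1 / 12) + 2) * (2 ^ s + E))) +
      (U i).length * (2 ^ (s + s') * 1 + 2) < 2 ^ b := by
    have q1 : ((L1 ++ L2).length : ℝ) * (2 * ((2 ^ s' * (1 / 12) + 2) * (2 ^ s + E))) ≤
        12 * (2 * ((2 ^ s' * (1 / 12) + 2) * (2 ^ s + E))) := mul_le_mul_of_nonneg_right len (by positivity)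
    have q2 : ((U i).length : ℝ) * (2 ^ (s + s') * 1 + 2) ≤ 3 * (2 ^ (s + s') * 1 + 2) :=
      mul_le_mul_of_nonneg_right lenU (by positivity)
    have q3 : (2 : ℝ) ^ (s + s') = 2 ^ s * 2 ^ s' := pow_add _ _ _
    rw [q3] at q2
    have q4 : (2 : ℝ) ^ s' * (2 ^ s + E) ≤ 2 * (2 ^ s * 2 ^ s') := by
      have := mul_le_mul_of_nonneg_left (add_le_add (le_refl ((2 : ℝ) ^ s)) r2) (show (0 : ℝ) ≤ 2 ^ s' by positivity)
      linarith
    nlinarith
  have he' : 2 * 2 ^ s' + (((L1 ++ L2).length : ℝ) * (2 * (2 * (2 ^ s + E) + 2 ^ s' * (1 / 12) * E)) + (U i).length * 2) ≤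
      (2 * E + 9 : ℝ) * 2 ^ s' := by
    have q1 : ((L1 ++ L2).length : ℝ) * (2 * (2 * (2 ^ s + E) + 2 ^ s' * (1 / 12) * E)) ≤
        12 * (2 * (2 * (2 ^ s + E) + 2 ^ s' * (1 / 12) * E)) := mul_le_mul_of_nonneg_right len (by positivity)
    nlinarith
  obtain ⟨dx, dy, h1, h2, h3⟩ := row_sound (L1 ++ L2) (U i) ok (hU1 i hi) (by norm_num) hb hs hB he'
  have hent : (L1 ++ L2).map (iT b l1) = entI b s' l1 K L (Int.ofNat R) DZ e1 e2 νn (32 * νd * DZ) T1 T2 i := by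
    have l1' := hT1.len
    have l2' := hT2.len
    rw [List.map_append, hL1, hL2, ← entL_eq (b := b) (l1 := l1) (s' := s') (R3 := (R : ℤ)) (νn := νn)
      (den := 32 * νd * DZ) (DZ := DZ) (ν := ν) (D := D1) (T := T1) fun x hx1 => by have := (hx true x hx1).2; omega,
      ← entL_eq (b := b) (l1 := l1) (s' := s') (R3 := (R : ℤ)) (νn := νn)
      (den := 32 * νd * DZ) (DZ := DZ) (ν := ν) (D := D2) (T := T2) fun x hx1 => by have := (hx false x hx1).2; omega]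
    rfl
  rw [hent] at h1 h2
  have hq := h3 l hl
  have hdx : dz b l (qX b s' l1 K L R DZ e1 e2 νn (32 * νd * DZ) T1 T2 (fun i => (U i).map iU) i) = dx l :=
    h1.digit (by omega)
  have hdy : dz b l (qY b s' l1 K L R DZ e1 e2 νn (32 * νd * DZ) T1 T2 (fun i => (U i).map iU) i) = dy l :=
    h2.digit (by omega)
  rw [hdx, hdy]
  have hκ : ((L1 ++ L2).map (xT l)).sum + ((U i).map (xU l)).sum = qC ν DZ D1 D1' D2 D2' K L e1 e2 U l i := by
    unfold qC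
    rw [List.map_append, List.sum_append, hL1, hL2, List.map_map, List.map_map]
    congr 2
    · congr 1
      refine List.map_congr_left fun x hx1 => ?_
      obtain ⟨a1, a2⟩ := hx true x hx1
      exact xT_teOf d1 (te_ok hT1 hν hνd h6 hD hR a1 a2).2 hle
    · congr 1
      refine List.map_congr_left fun x hx1 => ?_
      obtain ⟨a1, a2⟩ := hx false x hx1
      exact xT_teOf d2 (te_ok hT2 hν hνd h6 hD hR a1 a2).2 hle
  rw [← hκ]
  exact hq

/-- the identity for `WA` -/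
theorem WA_col {P : Par} {D1 D1' D2 D2' : ℝ → ℝ} {K L N : ℕ} {DZ e1 e2 : ℤ} (hK : ¬ Even K) (hL : Even L)
    (hN : max K L + 1 ≤ N) (hD : 0 < DZ) (he : |e1| + |e2| ≤ DZ) (hη : P.eta = ((e1 : ℂ) + e2 * Complex.I) / DZ)
    {ν : ℝ} {v : ℕ → ℝ} (hv : v 0 = 1) (l : ℤ) :
    -(ν / 2 : ℂ) * WA P (fun x => x - D1 x) (fun x => 1 - D1' x) (fun x => x - D2 x) (fun x => 1 - D2' x) N
      (pV K L v) (rV K L v) (sV K v) l =
      ∑ i ∈ Finset.range (nt K L), (v i : ℂ) *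
        (((colL true K L DZ e1 e2 i).map fun x => psi (ν / (32 * DZ)) D1 D1' l x.1 (ev4 x.2)).sum
        + ((colL false K L DZ e1 e2 i).map fun x => psi (ν / (32 * DZ)) D2 D2' l x.1 (ev4 x.2)).sum) := by
  have hI : ∀ f, ∀ i < nt K L, ∀ x ∈ colL f K L DZ e1 e2 i, x.1 ∈ Finset.Icc (-((N + 3 : ℕ) : ℤ)) ((N + 3 : ℕ) : ℤ) := by
    intro f i hi x hx
    obtain ⟨h1, h2⟩ := mem_col hD he hi hx
    obtain ⟨h3, h4⟩ := abs_le.1 h2
    rw [Finset.mem_Icc]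
    omega
  have w1 := wF_col (κ := ν / (32 * DZ)) (D := D1) (D' := D1') (n := nt K L) (M := N + 3) (DZ := DZ) (by omega) (l := l)
    (a := C1 P (pV K L v) (rV K L v) (sV K v)) (v := v) (C := colL true K L DZ e1 e2) (ν := ν) rfl
    (fun m => col_C1 hK hL (by omega) hη m v hv) (hI true)
  have w2 := wF_col (κ := ν / (32 * DZ)) (D := D2) (D' := D2') (n := nt K L) (M := N + 3) (DZ := DZ) (by omega) (l := l)
    (a := C2 P (pV K L v) (rV K L v) (sV K v)) (v := v) (C := colL false K L DZ e1 e2) (ν := ν) rfl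
    (fun m => col_C2 hK hL (by omega) hη m v hv) (hI false)
  unfold WA
  rw [mul_add, w1, w2, ← Finset.sum_add_distrib]
  exact Finset.sum_congr rfl fun i _ => by ring

/-- **THE ROWS OF `D2` AND OF `e_0`, PACKED PER COORDINATE** -/
theorem LR_q {c : CD} {b s s' l1 M E K L R N : ℕ} {D1 D1' D2 D2' : ℝ → ℝ} {T1 T2 : List PF}
    (c1 : c.Th1 = fun x => x - D1 x) (c1' : c.Th1' = fun x => 1 - D1' x)
    (c2 : c.Th2 = fun x => x - D2 x) (c2' : c.Th2' = fun x => 1 - D2' x) (d1 : DD D1 D1') (d2 : DD D2 D2')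
    (hT1 : TabOK b s l1 M E D1 T1) (hT2 : TabOK b s l1 M E D2 T2) (hM : max K L + 4 ≤ M) (hNN : max K L + 1 ≤ N)
    (hK : ¬ Even K) (hL : Even L)
    {νn νd DZ e1 e2 : ℤ} (hν : 0 < νn) (hνd : 0 < νd) (h6 : 6 * νn ≤ νd) (hD : 0 < DZ) (he : |e1| + |e2| ≤ DZ)
    (hη : c.P.eta = ((e1 : ℂ) + e2 * Complex.I) / DZ) (hnu : c.P.nu = (νn : ℝ) / νd)
    (hN : okN b s s' E R = true) {U : ℕ → List Ue} (hU1 : ∀ i < nt K L, ∀ u ∈ U i, u.ok s s' l1 1)
    (hU2 : ∀ i < nt K L, (U i).length ≤ 3)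
    (hU3 : ∀ v : ℕ → ℝ, v 0 = 1 → ∀ k : ℕ, 2 * k + 2 ≤ l1 → HkA c.P (pV K L v) (rV K L v) k =
      ∑ i ∈ Finset.range (nt K L), (v i : ℂ) * ((U i).map (xU (2 * k + 2))).sum)
    (hU4 : ∀ i < nt K L, ((U i).map (xU 0)).sum = 0) :
    (∀ k : ℕ, 2 * k + 2 ≤ l1 →
      LR (nt K L) (2 ^ s) (fun v => (qk c N (pV K L v) (rV K L v) (sV K v) k).re)
        (fun i => dz b (2 * k + 2) (qX b s' l1 K L R DZ e1 e2 νn (32 * νd * DZ) T1 T2 (fun i => (U i).map iU) i)) (2 * E + 9) ∧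
      LR (nt K L) (2 ^ s) (fun v => (qk c N (pV K L v) (rV K L v) (sV K v) k).im)
        (fun i => dz b (2 * k + 2) (qY b s' l1 K L R DZ e1 e2 νn (32 * νd * DZ) T1 T2 (fun i => (U i).map iU) i)) (2 * E + 9)) ∧
    LR (nt K L) (2 ^ s) (fun v => c.P.nu / 2 * e0I c.P c.Th1 c.Th1' c.Th2 c.Th2' N (pV K L v) (rV K L v) (sV K v))
      (fun i => dz b 0 (qX b s' l1 K L R DZ e1 e2 νn (32 * νd * DZ) T1 T2 (fun i => (U i).map iU) i)) (2 * E + 9) := by
  have key := fun (i : ℕ) (hi : i < nt K L) (l : ℕ) (hl : l ≤ l1) (hle : Even l) =>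
    q_rows d1 d2 hT1 hT2 hM hν.le hνd h6 hD he hN hU1 hU2 hi hl hle
  have split : ∀ (i : ℕ) (hi : i < nt K L) (l : ℕ) (hl : l ≤ l1) (hle : Even l),
      |2 ^ s * (qC ((νn : ℝ) / νd) DZ D1 D1' D2 D2' K L e1 e2 U l i).re -
        (dz b l (qX b s' l1 K L R DZ e1 e2 νn (32 * νd * DZ) T1 T2 (fun i => (U i).map iU) i) : ℝ)| ≤ 2 * E + 9 ∧
      |2 ^ s * (qC ((νn : ℝ) / νd) DZ D1 D1' D2 D2' K L e1 e2 U l i).im -
        (dz b l (qY b s' l1 K L R DZ e1 e2 νn (32 * νd * DZ) T1 T2 (fun i => (U i).map iU) i) : ℝ)| ≤ 2 * E + 9 := by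
    intro i hi l hl hle
    have h := key i hi l hl hle
    have h2 : (2 ^ s : ℂ) = ((2 ^ s : ℝ) : ℂ) := by push_cast; rfl
    rw [h2] at h
    constructor
    · rw [abs_sub_comm]
      refine le_trans (le_of_eq ?_) ((Complex.abs_re_le_norm _).trans h)
      rw [Complex.sub_re, Complex.re_ofReal_mul]
      simp
    · rw [abs_sub_comm]
      refine le_trans (le_of_eq ?_) ((Complex.abs_im_le_norm _).trans h)
      rw [Complex.sub_im, Complex.im_ofReal_mul]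
      simp
  have sumR : ∀ (v : ℕ → ℝ) (w : ℕ → ℂ), (∑ i ∈ Finset.range (nt K L), (v i : ℂ) * w i).re =
      ∑ i ∈ Finset.range (nt K L), (w i).re * v i := by
    intro v w
    rw [Complex.re_sum]
    exact Finset.sum_congr rfl fun i _ => by rw [Complex.re_ofReal_mul, mul_comm]
  have sumI : ∀ (v : ℕ → ℝ) (w : ℕ → ℂ), (∑ i ∈ Finset.range (nt K L), (v i : ℂ) * w i).im =
      ∑ i ∈ Finset.range (nt K L), (w i).im * v i := by
    intro v w
    rw [Complex.im_sum]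
    exact Finset.sum_congr rfl fun i _ => by rw [Complex.im_ofReal_mul, mul_comm]
  have hq : ∀ v : ℕ → ℝ, v 0 = 1 → ∀ k : ℕ, 2 * k + 2 ≤ l1 → qk c N (pV K L v) (rV K L v) (sV K v) k =
      ∑ i ∈ Finset.range (nt K L), (v i : ℂ) * qC ((νn : ℝ) / νd) DZ D1 D1' D2 D2' K L e1 e2 U (2 * k + 2) i := by
    intro v hv k hk
    unfold qk
    rw [c1, c1', c2, c2', hU3 v hv k hk]
    have w := WA_col (P := c.P) (D1 := D1) (D1' := D1') (D2 := D2) (D2' := D2') hK hL hNN hD he hη (ν := c.P.nu) hv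
      (2 * (k : ℤ) + 2)
    have e : ∀ (A B : ℂ), A - (c.P.nu / 2 : ℂ) * B = A + -(c.P.nu / 2 : ℂ) * B := fun A B => by ring
    rw [e, w, ← Finset.sum_add_distrib]
    refine Finset.sum_congr rfl fun i _ => ?_
    unfold qC
    rw [hnu]
    push_cast
    ring
  refine ⟨fun k hk => ⟨⟨fun i => (qC ((νn : ℝ) / νd) DZ D1 D1' D2 D2' K L e1 e2 U (2 * k + 2) i).re, ?_, ?_⟩,
    ⟨fun i => (qC ((νn : ℝ) / νd) DZ D1 D1' D2 D2' K L e1 e2 U (2 * k + 2) i).im, ?_, ?_⟩⟩,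
    ⟨fun i => (qC ((νn : ℝ) / νd) DZ D1 D1' D2 D2' K L e1 e2 U 0 i).re, ?_, ?_⟩⟩
  · intro v hv
    beta_reduce
    rw [hq v hv k hk, sumR]
  · intro i hi
    exact (split i hi (2 * k + 2) hk ⟨k + 1, by ring⟩).1
  · intro v hv
    beta_reduce
    rw [hq v hv k hk, sumI]
  · intro i hi
    exact (split i hi (2 * k + 2) hk ⟨k + 1, by ring⟩).2
  · intro v hv
    beta_reduce
    rw [← sumR]
    have w := WA_col (P := c.P) (D1 := D1) (D1' := D1') (D2 := D2) (D2' := D2') hK hL hNN hD he hη (ν := c.P.nu) hv 0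
    have e0 : WA c.P (fun x => x - D1 x) (fun x => 1 - D1' x) (fun x => x - D2 x) (fun x => 1 - D2' x) N
        (pV K L v) (rV K L v) (sV K v) 0 = -((e0I c.P c.Th1 c.Th1' c.Th2 c.Th2' N (pV K L v) (rV K L v) (sV K v) : ℝ) : ℂ) := by
      unfold WA e0I
      rw [c1, c1', c2, c2', wF_zero, wF_zero]
      push_cast
      ring
    rw [e0] at w
    have e1 : ((c.P.nu / 2 * e0I c.P c.Th1 c.Th1' c.Th2 c.Th2' N (pV K L v) (rV K L v) (sV K v) : ℝ) : ℂ) =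
        ∑ i ∈ Finset.range (nt K L), (v i : ℂ) * qC ((νn : ℝ) / νd) DZ D1 D1' D2 D2' K L e1 e2 U 0 i := by
      push_cast
      have e2 : (c.P.nu : ℂ) / 2 * (e0I c.P c.Th1 c.Th1' c.Th2 c.Th2' N (pV K L v) (rV K L v) (sV K v) : ℂ) =
          -(c.P.nu / 2 : ℂ) * -((e0I c.P c.Th1 c.Th1' c.Th2 c.Th2' N (pV K L v) (rV K L v) (sV K v) : ℝ) : ℂ) := by ring
      rw [e2, w]
      refine Finset.sum_congr rfl fun i hi => ?_
      unfold qC
      rw [hU4 i (Finset.mem_range.1 hi), hnu]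
      push_cast
      ring
    rw [← e1, Complex.ofReal_re]
  · intro i hi
    exact (split i hi 0 (Nat.zero_le _) Even.zero).1

end Helper96.SH
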