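import Pool.Agent.Helper96.SH.Enc

/-!
# Project RC, SHARP, cell engine: linear combinations of packed sequences

`lcA b n l 0 0 0 0`: the combination `∑ c X` of the packed sequences of the list `l` of the pairs `(c, X)`.
`unM b n k`: the unit sequence at `k`. `adN`, `suN`: sum and difference.
-/

set_option autoImplicit false

namespace Helper96.SH

open Helper54.RC.Fast Helper76.RC.TPoly

/-- linear combination with accumulators -/
def lcA (b n : ℕ) : List (ℤ × ℕ) → ℕ → ℕ → ℕ → ℕ → ℕ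
  | [], P, N, p, q => Nat.sub (Nat.add P (Nat.mul (of b n) (Nat.succ q))) (Nat.add N (Nat.mul (of b n) p))
  | (Int.ofNat a, X) :: l, P, N, p, q => lcA b n l (Nat.add P (Nat.mul a X)) N (Nat.add p a) q
  | (Int.negSucc a, X) :: l, P, N, p, q =>
    lcA b n l P (Nat.add N (Nat.mul (Nat.succ a) X)) p (Nat.add q (Nat.succ a))

/-- the unit sequence -/
def unM (b n k : ℕ) : ℕ := Nat.add (of b n) (Nat.pow (Nat.pow 2 (Nat.succ b)) k)
/-- sum and difference -/
def adN (b n X Y : ℕ) : ℕ := Nat.sub (Nat.add X Y) (of b n)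
def suN (b n X Y : ℕ) : ℕ := Nat.sub (Nat.add X (of b n)) Y

theorem lcA_nil (b n P N p q : ℕ) : lcA b n [] P N p q = (P + of b n * (q + 1)) - (N + of b n * p) := rfl

theorem lcA_pos (b n a X : ℕ) (l : List (ℤ × ℕ)) (P N p q : ℕ) :
    lcA b n ((Int.ofNat a, X) :: l) P N p q = lcA b n l (P + a * X) N (p + a) q := rfl

theorem lcA_neg (b n a X : ℕ) (l : List (ℤ × ℕ)) (P N p q : ℕ) :
    lcA b n ((Int.negSucc a, X) :: l) P N p q = lcA b n l P (N + (a + 1) * X) p (q + (a + 1)) := rfl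

/-- the value of the combination -/
theorem lcA_enc (b n : ℕ) (L : List (ℤ × ℕ × (ℕ → ℤ))) (hL : ∀ t ∈ L, Enc b n t.2.1 t.2.2) :
    ∀ (P N p q : ℕ) (d : ℕ → ℤ),
      ((P : ℤ) - N = ∑ k ∈ Finset.range n, d k * (2 ^ (b + 1)) ^ k + ((p : ℤ) - q) * of b n) →
      (∀ k < n, -(2 ^ b : ℤ) ≤ d k + (L.map (fun t => t.1 * t.2.2 k)).sum ∧
        d k + (L.map (fun t => t.1 * t.2.2 k)).sum < 2 ^ b) →
      Enc b n (lcA b n (L.map (fun t => (t.1, t.2.1))) P N p q) (fun k => d k + (L.map (fun t => t.1 * t.2.2 k)).sum) := by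
  induction L with
  | nil =>
    intro P N p q d h1 h2
    rw [List.map_nil, lcA_nil]
    refine Enc_sub h2 ?_
    simp only [List.map_nil, List.sum_nil, add_zero]
    push_cast
    have e : ∑ k ∈ Finset.range n, (d k + 2 ^ b) * (2 ^ (b + 1)) ^ k =
        ∑ k ∈ Finset.range n, d k * (2 ^ (b + 1)) ^ k + of b n := by
      rw [of_sum, ← Finset.sum_add_distrib]
      exact Finset.sum_congr rfl fun k _ => by ring
    rw [e]
    linear_combination h1
  | cons t L ih =>
    intro P N p q d h1 h2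
    obtain ⟨c, X, e⟩ := t
    have hX : Enc b n X e := hL _ List.mem_cons_self
    have hL' : ∀ t ∈ L, Enc b n t.2.1 t.2.2 := fun t ht => hL t (List.mem_cons_of_mem _ ht)
    have hv := hX.val
    simp only [List.map_cons, List.sum_cons] at h2 ⊢
    have key : ∀ k, d k + (c * e k + (L.map (fun t => t.1 * t.2.2 k)).sum) =
        (d k + c * e k) + (L.map (fun t => t.1 * t.2.2 k)).sum := fun k => by ring
    simp only [key] at h2 ⊢
    have hs : ∑ k ∈ Finset.range n, (d k + c * e k) * (2 ^ (b + 1)) ^ k =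
        ∑ k ∈ Finset.range n, d k * (2 ^ (b + 1)) ^ k + c * ((X : ℤ) - of b n) := by
      rw [hv]
      have : ∑ k ∈ Finset.range n, e k * (2 ^ (b + 1)) ^ k + (of b n : ℤ) - of b n =
          ∑ k ∈ Finset.range n, e k * (2 ^ (b + 1)) ^ k := by ring
      rw [this, Finset.mul_sum, ← Finset.sum_add_distrib]
      exact Finset.sum_congr rfl fun k _ => by ring
    cases c with
    | ofNat a =>
      rw [lcA_pos]
      refine ih hL' _ _ _ _ (fun k => d k + Int.ofNat a * e k) ?_ h2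
      rw [hs]
      push_cast
      have e1 : (Int.ofNat a : ℤ) = (a : ℤ) := rfl
      rw [e1]
      linear_combination h1
    | negSucc a =>
      rw [lcA_neg]
      refine ih hL' _ _ _ _ (fun k => d k + Int.negSucc a * e k) ?_ h2
      rw [hs]
      push_cast
      have e1 : (Int.negSucc a : ℤ) = -((a : ℤ) + 1) := by
        rw [Int.negSucc_eq]
      rw [e1]
      linear_combination h1

/-- **linear combination** -/
theorem Enc_lc (b n : ℕ) (L : List (ℤ × ℕ × (ℕ → ℤ))) (hL : ∀ t ∈ L, Enc b n t.2.1 t.2.2)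
    (h : ∀ k < n, |(L.map (fun t => t.1 * t.2.2 k)).sum| < 2 ^ b) :
    Enc b n (lcA b n (L.map (fun t => (t.1, t.2.1))) 0 0 0 0) (fun k => (L.map (fun t => t.1 * t.2.2 k)).sum) := by
  have := lcA_enc b n L hL 0 0 0 0 (fun _ => 0) (by simp) (by
    intro k hk
    have := abs_lt.1 (h k hk)
    rw [zero_add]
    exact ⟨this.1.le, this.2⟩)
  simpa using this

theorem Enc_unM {b n k : ℕ} (hk : k < n) (hb : 1 ≤ b) : Enc b n (unM b n k) (fun j => if j = k then 1 else 0) := by
  have h2 : (2 : ℤ) ≤ 2 ^ b := by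
    calc (2 : ℤ) = 2 ^ 1 := by norm_num
      _ ≤ 2 ^ b := pow_le_pow_right₀ (by norm_num) hb
  refine ⟨?_, fun j _ => ?_⟩
  · have e : unM b n k = of b n + (2 ^ (b + 1)) ^ k := rfl
    rw [e]
    push_cast
    rw [of_sum]
    have e2 : ∑ j ∈ Finset.range n, ((if j = k then 1 else 0) + 2 ^ b : ℤ) * (2 ^ (b + 1)) ^ j =
        ∑ j ∈ Finset.range n, (if j = k then 1 else 0 : ℤ) * (2 ^ (b + 1)) ^ j +
        ∑ j ∈ Finset.range n, (2 ^ b : ℤ) * (2 ^ (b + 1)) ^ j := by
      rw [← Finset.sum_add_distrib]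
      exact Finset.sum_congr rfl fun j _ => by ring
    rw [e2]
    have e3 : ∑ j ∈ Finset.range n, (if j = k then 1 else 0 : ℤ) * (2 ^ (b + 1)) ^ j = (2 ^ (b + 1)) ^ k := by
      rw [Finset.sum_eq_single k]
      · simp
      · intro j _ hj; simp [hj]
      · intro h; exact absurd (Finset.mem_range.2 hk) h
    rw [e3]
    ring
  · by_cases hj : j = k
    · simp only [hj, if_true]; constructor <;> linarith
    · simp only [hj, if_false]; constructor <;> linarith

theorem Enc_ad {b n X Y : ℕ} {d e : ℕ → ℤ} (hX : Enc b n X d) (hY : Enc b n Y e)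
    (h : ∀ k < n, |d k + e k| < 2 ^ b) : Enc b n (adN b n X Y) (fun k => d k + e k) := by
  have e1 : adN b n X Y = (X + Y) - of b n := rfl
  rw [e1]
  refine Enc_sub (fun k hk => ⟨(abs_lt.1 (h k hk)).1.le, (abs_lt.1 (h k hk)).2⟩) ?_
  push_cast
  rw [hX.1, hY.1, of_sum, ← Finset.sum_add_distrib, ← Finset.sum_sub_distrib]
  exact Finset.sum_congr rfl fun k _ => by ring

theorem Enc_su {b n X Y : ℕ} {d e : ℕ → ℤ} (hX : Enc b n X d) (hY : Enc b n Y e)
    (h : ∀ k < n, |d k - e k| < 2 ^ b) : Enc b n (suN b n X Y) (fun k => d k - e k) := by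
  have e1 : suN b n X Y = (X + of b n) - Y := rfl
  rw [e1]
  refine Enc_sub (fun k hk => ⟨(abs_lt.1 (h k hk)).1.le, (abs_lt.1 (h k hk)).2⟩) ?_
  push_cast
  rw [hX.1, hY.1, of_sum, ← Finset.sum_add_distrib, ← Finset.sum_sub_distrib]
  exact Finset.sum_congr rfl fun k _ => by ring

end Helper96.SH
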